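import Pool.Agent.Helper3.JT.OkT
import Pool.Agent.Helper3.JD.CellHex

/-!
# Jigsaw tiles on the triangular tiling: Voronoi cell and order two cells of the centres

In lattice coordinates the squared norm is `x^2 + x y + y^2`, twice the inner product of `p` and
`u = (a, b)` is `(2x + y) a + (x + 2y) b`; a place `u` is nearer to `p` than `0` iff this is larger
than `a^2 + a b + b^2` (compare `JD/CellHex.lean`, with reusable lemmas `CellHex_lt`, `CellHex_le`).

`tri_vor`: necessary: the three neighbours `(1,0), (-1,1), (0,-1)`; sufficient: for `p` in the triangle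
`triQ` (vertices `(0,1), (1,-1), (-1,0)`) the inequality is linear in `p`, so check it at the vertices:
`a + 2b ≤ a^2 + ab + b^2`, `a - b ≤ ...`, `-2a - b ≤ ...` for all `(a, b)` with `(a - b) % 3 ≠ 2`.

`tri_cell2` for `e = 0` (transport with the matrices of even labels, `RealHex_inv`): necessary: the
neighbours `(-1,1), (0,-1)` of `0` and `(2,-1), (1,1)` of `(1,0)`; sufficient: affine in `p`, check at
the vertices `0, (1,-1), (1,0), (0,1)` of the rhombus `triU0`.
-/

namespace Pool.H3JG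

open Set

theorem CellT_Q {a b : ℤ} (h : ¬ (a = 0 ∧ b = 0)) : 1 ≤ a ^ 2 + a * b + b ^ 2 := by
  have h3 : 0 < 4 * (a ^ 2 + a * b + b ^ 2) := by
    have h4 : 4 * (a ^ 2 + a * b + b ^ 2) = (2 * a + b) ^ 2 + 3 * b ^ 2 := by ring
    rw [h4]
    by_cases hb : b = 0
    · have ha : a ≠ 0 := fun ha => h ⟨ha, hb⟩
      subst hb
      have : 0 < a ^ 2 := by positivity
      nlinarith
    · have : 0 < b ^ 2 := by positivity
      nlinarith [sq_nonneg (2 * a + b)]
  omega

theorem CellT_facts {a b : ℤ} (h : ¬ (a - b) % 3 = 2) :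
    a - b ≤ a ^ 2 + a * b + b ^ 2 ∧ a + 2 * b ≤ a ^ 2 + a * b + b ^ 2 ∧
      -2 * a - b ≤ a ^ 2 + a * b + b ^ 2 := by
  have h1 := CellT_Q (a := a - 1) (b := b + 1) (by omega)
  have h2 := CellT_Q (a := a) (b := b - 1) (by omega)
  have h3 := CellT_Q (a := a + 1) (b := b) (by omega)
  refine ⟨by nlinarith, by nlinarith, by nlinarith⟩

theorem CellT_mem (p : V) (A : Set V) : RealHex_F p ∈ hexF '' A ↔ p ∈ A := by
  constructor
  · rintro ⟨q, hq, h⟩
    have : q = p := RealHex_F.injective h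
    rwa [← this]
  · intro h
    exact ⟨p, h, rfl⟩

theorem tri_vor : Vor TriangleCentres = hexF '' triQ := by
  ext e
  obtain ⟨p, rfl⟩ := RealHex_F.surjective e
  rw [CellT_mem, triangleCentres_eq]
  have hcond : RealHex_F p ∈ Vor ((fun z : Z2 => hexF (toV z)) '' {z | chi z ≠ 2}) ↔
      ∀ z : Z2, chi z ≠ 2 → ‖hexF p‖ ≤ ‖hexF (p - toV z)‖ := by
    constructor
    · intro h z hz
      have := h _ ⟨z, hz, rfl⟩
      rw [RealHex_sub]
      exact this
    · rintro h _ ⟨z, hz, rfl⟩
      have := h z hz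
      rw [RealHex_sub] at this
      exact this
  rw [hcond]
  obtain ⟨x, y⟩ := p
  simp only [CellHex_le, toV, Prod.mk_sub_mk]
  constructor
  · intro h
    have k1 := h (1, 0) (by decide)
    have k2 := h (-1, 1) (by decide)
    have k3 := h (0, -1) (by decide)
    push_cast at k1 k2 k3
    refine ⟨?_, ?_, ?_⟩ <;> simp only <;> nlinarith
  · rintro ⟨h1, h2, h3⟩ ⟨a, b⟩ hz
    simp only at h1 h2 h3 ⊢
    obtain ⟨f1, f2, f3⟩ := CellT_facts ((chi_ne_two_iff (a, b)).1 hz)
    have g1 : (a : ℝ) - b ≤ (a : ℝ) ^ 2 + a * b + (b : ℝ) ^ 2 := by exact_mod_cast f1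
    have g2 : (a : ℝ) + 2 * b ≤ (a : ℝ) ^ 2 + a * b + (b : ℝ) ^ 2 := by exact_mod_cast f2
    have g3 : -2 * (a : ℝ) - b ≤ (a : ℝ) ^ 2 + a * b + (b : ℝ) ^ 2 := by exact_mod_cast f3
    have m1 := mul_nonneg (sub_nonneg.2 h1) (sub_nonneg.2 g3)
    have m2 := mul_nonneg (sub_nonneg.2 h2) (sub_nonneg.2 g1)
    have m3 := mul_nonneg (sub_nonneg.2 h3) (sub_nonneg.2 g2)
    nlinarith

/-- the order two cell in lattice coordinates -/
def CellT_P (w : Z2) (p : V) : Prop :=
  ∀ z : Z2, chi z ≠ 2 → z ≠ 0 → z ≠ w →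
    ‖hexF p‖ < ‖hexF (p - toV z)‖ ∧ ‖hexF (p - toV w)‖ < ‖hexF (p - toV z)‖

theorem CellT_cell (w : Z2) : Cell TriangleCentres (hexF (toV w)) =
    hexF '' {p | CellT_P w p} := by
  ext e
  obtain ⟨p, rfl⟩ := RealHex_F.surjective e
  rw [CellT_mem, triangleCentres_eq]
  constructor
  · intro h z hc hz hzw
    have h1 := h (hexF (toV z)) ⟨z, hc, rfl⟩ (by
      intro h2
      apply hz
      apply CellHex_toV_inj
      rw [h2, toV_zero, CellHex_hexF_zero]) (fun h2 => hzw (CellHex_toV_inj h2))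
    rw [RealHex_sub, RealHex_sub]
    exact h1
  · rintro h _ ⟨z, hc, rfl⟩ hz hzw
    have h1 := h z hc (by
      rintro rfl
      apply hz
      simp only
      rw [toV_zero, CellHex_hexF_zero]) (by
      rintro rfl
      exact hzw rfl)
    rw [RealHex_sub, RealHex_sub] at h1
    exact h1

theorem CellT_P_zero (p : V) : CellT_P (hexDir 0) p ↔ p ∈ triU0 := by
  obtain ⟨x, y⟩ := p
  rw [show hexDir 0 = (1, 0) from rfl]
  unfold CellT_P
  simp only [CellHex_lt, toV, Prod.mk_sub_mk]
  constructor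
  · intro h
    have k1 := (h (-1, 1) (by decide) (by decide) (by decide)).2
    have k2 := (h (0, -1) (by decide) (by decide) (by decide)).2
    have k3 := (h (2, -1) (by decide) (by decide) (by decide)).1
    have k4 := (h (1, 1) (by decide) (by decide) (by decide)).1
    push_cast at k1 k2 k3 k4
    refine ⟨?_, ?_, ?_, ?_⟩ <;> simp only <;> nlinarith
  · rintro ⟨h1, h2, h3, h4⟩ ⟨a, b⟩ hc hz hzw
    simp only at h1 h2 h3 h4
    have n0 : ¬ (a = 0 ∧ b = 0) := by
      rintro ⟨e1, e2⟩
      apply hz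
      exact Prod.ext e1 e2
    have n1 : ¬ (a - 1 = 0 ∧ b = 0) := by
      rintro ⟨e1, e2⟩
      apply hzw
      exact Prod.ext (by simp only; omega) e2
    obtain ⟨f1, f2, -⟩ := CellT_facts ((chi_ne_two_iff (a, b)).1 hc)
    have f0 := CellT_Q n0
    have f3 : 2 * a + b ≤ a ^ 2 + a * b + b ^ 2 := by
      have := CellT_Q n1
      nlinarith
    obtain ⟨Q, hQ⟩ : ∃ Q : ℝ, Q = (a : ℝ) ^ 2 + a * b + (b : ℝ) ^ 2 := ⟨_, rfl⟩
    have g0 : (1 : ℝ) ≤ Q := by rw [hQ]; exact_mod_cast f0
    have g1 : (a : ℝ) - b ≤ Q := by rw [hQ]; exact_mod_cast f1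
    have g2 : (a : ℝ) + 2 * b ≤ Q := by rw [hQ]; exact_mod_cast f2
    have g3 : 2 * (a : ℝ) + b ≤ Q := by rw [hQ]; exact_mod_cast f3
    have p00 : 0 < (1 - x) * (1 - (x + y)) := mul_pos (by linarith) (by linarith)
    have p10 : 0 < x * (1 - (x + y)) := mul_pos h1 (by linarith)
    have p01 : 0 < (1 - x) * (x + y) := mul_pos (by linarith) h3
    have p11 : 0 < x * (x + y) := mul_pos h1 h3
    have m00 := mul_nonneg p00.le (sub_nonneg.2 g0)
    have m10 := mul_nonneg p10.le (sub_nonneg.2 g1)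
    have m01 := mul_nonneg p01.le (sub_nonneg.2 g2)
    have m11 := mul_nonneg p11.le (sub_nonneg.2 g3)
    have r1 : x * (a - b) + (x + y) * (a + 2 * b) < Q := by
      have e1 : Q - (x * (a - b) + (x + y) * (a + 2 * b)) =
          (1 - x) * (1 - (x + y)) * (Q - 1) + x * (1 - (x + y)) * (Q - (a - b)) +
          (1 - x) * (x + y) * (Q - (a + 2 * b)) + x * (x + y) * (Q - (2 * a + b)) +
          (1 - x) * (1 - (x + y)) := by ring
      linarith
    have r2 : x * (a - 1 - b) + (x + y) * (a - 1 + 2 * b) < Q - 1 := by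
      have e1 : Q - 1 - (x * (a - 1 - b) + (x + y) * (a - 1 + 2 * b)) =
          (1 - x) * (1 - (x + y)) * (Q - 1) + x * (1 - (x + y)) * (Q - (a - b)) +
          (1 - x) * (x + y) * (Q - (a + 2 * b)) + x * (x + y) * (Q - (2 * a + b)) +
          x * (x + y) := by ring
      linarith
    push_cast
    constructor <;> nlinarith

theorem CellT_transport (e : ZMod 6) (he : ev e = true) (p : V) :
    CellT_P (hexDir e) ((hexMat (e, false)).ap p) ↔ CellT_P (hexDir 0) p := by
  have hdir : hexDir e = (hexMat (e, false)).apZ (hexDir 0) := by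
    have h := gridHex.mat_dir (e, false) 0
    have h2 : act ((e, false) : Lab 6) 0 = e := by simp [act, sg]
    rw [h2] at h
    exact h.symm
  have hchi : ∀ z : Z2, chi ((hexMat (e, false)).apZ z) = chi z := by
    intro z
    rw [chi_mat]
    simp only [he, if_true]
  have hnorm : ∀ z : Z2, ‖hexF ((hexMat (e, false)).ap p - toV ((hexMat (e, false)).apZ z))‖ =
      ‖hexF (p - toV z)‖ := by
    intro z
    rw [toV_apZ, ← Mat.ap_sub, RealHex_inv]
  have hinj : ∀ z z' : Z2, (hexMat (e, false)).apZ z = (hexMat (e, false)).apZ z' → z = z' := by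
    intro z z' h
    have h1 := congrArg (gridHex.mat (linv (e, false))).apZ h
    have h2 := gridHex.apZ_linv_apZ (e, false) z
    have h3 := gridHex.apZ_linv_apZ (e, false) z'
    exact h2.symm.trans (h1.trans h3)
  constructor
  · intro h z hc hz hz0
    have h1 := h ((hexMat (e, false)).apZ z) (by rw [hchi]; exact hc) (by
      intro h2
      apply hz
      apply hinj
      rw [h2, Mat.apZ_zero]) (by
      intro h2
      rw [hdir] at h2
      exact hz0 (hinj _ _ h2))
    rw [hdir, hnorm, hnorm, RealHex_inv] at h1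
    exact h1
  · intro h z hc hz hz0
    obtain ⟨z', rfl⟩ : ∃ z', z = (hexMat (e, false)).apZ z' :=
      ⟨_, (gridHex.apZ_apZ_linv (e, false) z).symm⟩
    have h1 := h z' (by rwa [hchi] at hc) (by
      rintro rfl
      apply hz
      rw [Mat.apZ_zero]) (by
      rintro rfl
      exact hz0 hdir.symm)
    rw [hdir, hnorm, hnorm, RealHex_inv]
    exact h1

theorem tri_cell2 (e : ZMod 6) (he : ev e = true) :
    Cell TriangleCentres (hexF (toV (hexDir e))) = hexF '' gridTri.U e := by
  rw [CellT_cell]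
  congr 1
  ext p
  constructor
  · intro h
    have h1 : (hexMat (e, false)).ap ((gridTri.mat (linv (e, false))).ap p) = p :=
      gridTri.ap_ap_linv (e, false) p
    refine ⟨(gridTri.mat (linv (e, false))).ap p, ?_, h1⟩
    have h2 : CellT_P (hexDir e) p := h
    rw [← h1, CellT_transport e he, CellT_P_zero] at h2
    exact h2
  · rintro ⟨q, hq, rfl⟩
    have h2 : q ∈ triU0 := hq
    rw [← CellT_P_zero, ← CellT_transport e he] at h2
    exact h2

end Pool.H3JG
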