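import Pool.Agent.Helper3.JT.DefsT

/-!
# Jigsaw tiles on the triangular tiling: types and labels
-/

namespace Pool.H3JG

open Set

theorem chi_zero : chi 0 = 0 := by
  simp [chi]

theorem chi_add (z w : Z2) : chi (z + w) = chi z + chi w := by
  unfold chi
  simp only [Prod.fst_add, Prod.snd_add]
  push_cast
  ring

theorem chi_neg (z : Z2) : chi (-z) = -chi z := by
  unfold chi
  simp only [Prod.fst_neg, Prod.snd_neg]
  push_cast
  ring

theorem chi_mat (a : Lab 6) (w : Z2) :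
    chi ((hexMat a).apZ w) = if ev a.1 then chi w else -chi w := by
  have key : ∀ a : Lab 6, (((hexMat a).a : ZMod 3) - ((hexMat a).c : ZMod 3)
      = if ev a.1 then 1 else -1) ∧ (((hexMat a).b : ZMod 3) - ((hexMat a).d : ZMod 3)
      = if ev a.1 then -1 else 1) := by
    decide
  obtain ⟨k1, k2⟩ := key a
  unfold chi Mat.apZ
  push_cast
  have e : ((hexMat a).a : ZMod 3) * (w.1 : ZMod 3) + ((hexMat a).b : ZMod 3) * (w.2 : ZMod 3)
      - (((hexMat a).c : ZMod 3) * (w.1 : ZMod 3) + ((hexMat a).d : ZMod 3) * (w.2 : ZMod 3))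
      = (((hexMat a).a : ZMod 3) - ((hexMat a).c : ZMod 3)) * (w.1 : ZMod 3)
        + (((hexMat a).b : ZMod 3) - ((hexMat a).d : ZMod 3)) * (w.2 : ZMod 3) := by ring
  rw [e, k1, k2]
  split_ifs <;> ring

theorem chi_dir : ∀ d : ZMod 6, chi (hexDir d) = if ev d then 1 else 2 := by
  decide

theorem ev_lmul : ∀ a b : Lab 6, ev (lmul a b).1 = (ev a.1 == ev b.1) := by
  decide

theorem ev_linv : ∀ a : Lab 6, ev (linv a).1 = ev a.1 := by
  decide

theorem ev_add3 : ∀ d : ZMod 6, ev (d + 3) = !ev d := by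
  decide

theorem ev_act : ∀ (a : Lab 6) (d : ZMod 6), ev (act a d) = (ev a.1 == ev d) := by
  decide

theorem okT_zero {f : Bool} : OkT 0 (0, f) := by
  left
  exact ⟨chi_zero, rfl⟩

theorem okT_chi {z : Z2} {a : Lab 6} (h : OkT z a) : chi z ≠ 2 := by
  rcases h with h | h <;> rw [h.1] <;> decide

theorem okT_mul {z w : Z2} {a b : Lab 6} (h1 : OkT z a) (h2 : OkT w b) :
    OkT (mvR hexMat z a w) (lmul a b) := by
  unfold OkT at *
  unfold mvR
  rw [chi_add, chi_mat, ev_lmul]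
  rcases h1 with ⟨c1, e1⟩ | ⟨c1, e1⟩ <;> rcases h2 with ⟨c2, e2⟩ | ⟨c2, e2⟩ <;>
    rw [c1, c2, e1, e2] <;> decide

theorem okT_inv {z : Z2} {a : Lab 6} (h : OkT z a) :
    OkT (-((hexMat (linv a)).apZ z)) (linv a) := by
  unfold OkT at *
  rw [chi_neg, chi_mat, ev_linv]
  rcases h with ⟨c1, e1⟩ | ⟨c1, e1⟩ <;> rw [c1, e1] <;> decide

theorem chi_mv {z w : Z2} {a : Lab 6} (h : OkT z a) (hw : chi w ≠ 2) :
    chi (mvR hexMat z a w) ≠ 2 := by
  unfold mvR
  rw [chi_add, chi_mat]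
  have key : ∀ c : ZMod 3, c ≠ 2 → c = 0 ∨ c = 1 := by decide
  rcases h with ⟨c1, e1⟩ | ⟨c1, e1⟩ <;> rcases key _ hw with c2 | c2 <;>
    rw [c1, c2, e1] <;> decide

/-- A neighbour of a place of type `0` is a place if and only if the direction is even; for a place
of type `1` the direction has to be odd. -/
theorem nb_iff {z : Z2} (hz : chi z ≠ 2) (d : ZMod 6) :
    chi (z + hexDir d) ≠ 2 ↔ (chi z = 0 ∧ ev d = true) ∨ (chi z = 1 ∧ ev d = false) := by
  rw [chi_add, chi_dir]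
  have key : ∀ c : ZMod 3, c ≠ 2 → c = 0 ∨ c = 1 := by decide
  rcases key _ hz with c | c <;> rw [c] <;> revert d <;> decide

end Pool.H3JG
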