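import Pool.Agent.Helper3.JT.FitTileT

/-!
# Jigsaw tiles on the triangular tiling: from a good matching relation to an isohedral tiling

Proof. Take `g` from `GoodT`; by `Grid.fitAt_iff` and `tilesT_of_fitAt` the copies
`tile T z (g z)`, `z` of type `0` or `1`, tile the plane. Let `X z := re.F '' tile T z (g z)`. For
every place `w` the symmetry `(w, a)` of `GoodT` gives the isometry `φ w := re.iso w a` with
`φ w '' X v = X (mvR hexMat w a v)` for all places `v` (`Grid.pl_tile`, `re.iso_F`; the placements `pl`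
of `gridHex` and `gridTri` are the same), in particular `φ w '' X 0 = X w`, and `φ w` permutes the
family of all `X v` (its inverse `(-(hexMat (linv a)).apZ w, linv a)` maps places to places, `okT_inv`
and `chi_mv`). The family is `range X` over the places; `a 0 := re.iso 0 (g 0)`, so that
`⋃ i, a i '' (re.F '' T) = X 0`. Transitivity: `φ w ∘ (φ v)⁻¹`. Compare `JG/Assemble.lean`.
-/

namespace Pool.H3JG

open Set

/-- `(z, a)` is a symmetry of the labelling `g` of the places which maps places to places. -/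
private def AssembleT_PS (g : Z2 → Lab 6) (z : Z2) (a : Lab 6) : Prop :=
  OkT z a ∧ ∀ v, chi v ≠ 2 → g (mvR hexMat z a v) = lmul a (g v)

private theorem AssembleT_mv_mv (z w v : Z2) (a b : Lab 6) :
    mvR hexMat (mvR hexMat z a w) (lmul a b) v = mvR hexMat z a (mvR hexMat w b v) := by
  have h : hexMat (lmul a b) = (hexMat a).mul (hexMat b) := gridHex.mat_mul a b
  unfold mvR
  rw [h, Mat.apZ_mul, Mat.apZ_add, add_assoc]

private theorem AssembleT_mv_inv (z w : Z2) (a : Lab 6) :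
    mvR hexMat z a (mvR hexMat (-((hexMat (linv a)).apZ z)) (linv a) w) = w := by
  have h : ∀ p : Z2, (hexMat a).apZ ((hexMat (linv a)).apZ p) = p :=
    fun p => gridHex.apZ_apZ_linv a p
  unfold mvR
  rw [Mat.apZ_add, Mat.apZ_neg, h, h, add_neg_cancel_left]

private theorem AssembleT_mv_zero (z : Z2) (a : Lab 6) : mvR hexMat z a 0 = z := by
  unfold mvR
  rw [Mat.apZ_zero, add_zero]

private theorem AssembleT_inv_mv (z : Z2) (a : Lab 6) :
    mvR hexMat (-((hexMat (linv a)).apZ z)) (linv a) z = 0 := by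
  unfold mvR
  rw [neg_add_cancel]

private theorem AssembleT_comp {g : Z2 → Lab 6} {z w : Z2} {a b : Lab 6}
    (h1 : AssembleT_PS g z a) (h2 : AssembleT_PS g w b) :
    AssembleT_PS g (mvR hexMat z a w) (lmul a b) := by
  refine ⟨okT_mul h1.1 h2.1, fun v hv => ?_⟩
  rw [AssembleT_mv_mv, h1.2 _ (chi_mv h2.1 hv), h2.2 v hv, lmul_assoc']

private theorem AssembleT_inv {g : Z2 → Lab 6} {z : Z2} {a : Lab 6}
    (h1 : AssembleT_PS g z a) :
    AssembleT_PS g (-((hexMat (linv a)).apZ z)) (linv a) := by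
  refine ⟨okT_inv h1.1, fun v hv => ?_⟩
  have h := h1.2 (mvR hexMat (-((hexMat (linv a)).apZ z)) (linv a) v)
    (chi_mv (okT_inv h1.1) hv)
  rw [AssembleT_mv_inv] at h
  rw [h, ← lmul_assoc', linv_lmul, one_lmul]

private theorem AssembleT_image (re : Realiz gridHex) {T : Set V} {g : Z2 → Lab 6} {z : Z2}
    {a : Lab 6} (h : AssembleT_PS g z a) {v : Z2} (hv : chi v ≠ 2) :
    re.iso z a '' (re.F '' gridHex.tile T v (g v))
      = re.F '' gridHex.tile T (mvR hexMat z a v) (g (mvR hexMat z a v)) := by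
  have e : re.iso z a '' (re.F '' gridHex.tile T v (g v))
      = re.F '' (gridHex.pl z a '' gridHex.tile T v (g v)) := by
    rw [image_image, image_image]
    exact image_congr fun p _ => re.iso_F z a p
  rw [e, h.2 v hv]
  congr 1
  exact gridHex.pl_tile T z v a (g v)

private theorem AssembleT_family (re : Realiz gridHex) {T : Set V} {g : Z2 → Lab 6} {z : Z2}
    {a : Lab 6} (h : AssembleT_PS g z a) :
    Set.image (fun C : Set E => re.iso z a '' C)
      {A | ∃ w, chi w ≠ 2 ∧ A = re.F '' gridHex.tile T w (g w)}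
      = {A | ∃ w, chi w ≠ 2 ∧ A = re.F '' gridHex.tile T w (g w)} := by
  apply Subset.antisymm
  · rintro _ ⟨_, ⟨w, hw, rfl⟩, rfl⟩
    exact ⟨mvR hexMat z a w, chi_mv h.1 hw, AssembleT_image re h hw⟩
  · rintro _ ⟨w, hw, rfl⟩
    have hi := AssembleT_inv h
    refine ⟨_, ⟨mvR hexMat (-((hexMat (linv a)).apZ z)) (linv a) w, chi_mv hi.1 hw, rfl⟩, ?_⟩
    show re.iso z a '' _ = _
    rw [AssembleT_image re h (chi_mv hi.1 hw), AssembleT_mv_inv]

theorem repeating_of_goodT (re : Realiz gridHex) {T : Set V} (hT : IsClosed T) (hB : T ⊆ triB)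
    (hgood : GoodT (gridTri.rel T)) :
    ∃ a : Fin 1 → (E ≃ᵢ E), IsRepeating (re.F '' T) a := by
  obtain ⟨g, ⟨hok, hcon⟩, hsym⟩ := hgood
  have hfit : ∀ z d, chi z ≠ 2 → chi (z + hexDir d) ≠ 2 →
      gridTri.FitAt T d (g z) (g (z + hexDir d)) := fun z d h1 h2 =>
    (gridTri.fitAt_iff T d _ _).2 (hcon z d h1 h2)
  obtain ⟨htcov, htdis⟩ := tilesT_of_fitAt hT hB hok hfit
  have h0 : chi 0 ≠ 2 := by
    rw [chi_zero]; decide
  have hPS : ∀ w, chi w ≠ 2 → ∃ a, AssembleT_PS g w a := hsym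
  have hU : (⋃ i : Fin 1, (fun _ : Fin 1 => re.iso 0 (g 0)) i '' (re.F '' T))
      = re.F '' gridHex.tile T 0 (g 0) := by
    rw [iUnion_const]
    show re.iso 0 (g 0) '' (re.F '' T) = _
    rw [image_image]
    show _ = re.F '' (gridHex.pl 0 (g 0) '' T)
    rw [image_image]
    exact image_congr fun p _ => re.iso_F 0 (g 0) p
  refine ⟨fun _ => re.iso 0 (g 0), ?_, {A | ∃ w, chi w ≠ 2 ∧ A = re.F '' gridHex.tile T w (g w)},
    ?_, ?_, ?_, ?_⟩
  · intro i j hij
    exact absurd (Subsingleton.elim i j) hij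
  · rintro A ⟨w, hw, rfl⟩
    obtain ⟨a, ha⟩ := hPS w hw
    refine ⟨re.iso w a, ?_⟩
    rw [hU, AssembleT_image re ha h0, AssembleT_mv_zero]
  · rw [eq_univ_iff_forall]
    intro x
    obtain ⟨p, rfl⟩ := re.F.surjective x
    obtain ⟨w, hw, hp⟩ := htcov p
    exact ⟨_, ⟨w, hw, rfl⟩, p, hp, rfl⟩
  · rintro A ⟨z, hz, rfl⟩ B ⟨w, hw, rfl⟩ hne
    rw [← re.F.image_interior, ← re.F.image_interior, disjoint_image_iff re.F.injective]
    refine htdis z w hz hw ?_
    rintro rfl
    exact hne rfl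
  · rintro A ⟨z, hz, rfl⟩ B ⟨w, hw, rfl⟩
    obtain ⟨a, ha⟩ := hPS z hz
    obtain ⟨b, hb⟩ := hPS w hw
    have hc := AssembleT_comp hb (AssembleT_inv ha)
    refine ⟨re.iso _ _, AssembleT_family re hc, ?_⟩
    rw [AssembleT_image re hc hz, AssembleT_mv_mv, AssembleT_inv_mv, AssembleT_mv_zero]

end Pool.H3JG
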