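import Pool.Agent.Helper3.JT.OkT

/-!
# Jigsaw tiles on the triangular tiling: separation and covering

Coordinates `(x, y)`; `triU0 = {0 < x < 1, 0 < x + y < 1}` (a rhombus with vertices `0, (1,-1), (1,0),
(0,1)`), `triD0` its closure; `gridTri.U d = (hexMat (d, false)).ap '' triU0`; the star `triB` is the
union of the three closed rhombi of the directions `0, 2, 4`.

`tri_sep`: transport to `d = 0` by the matrix `(-d, false)` (even rotation, keeps `chi` and `OkT`:
`okT_mul`, `chi_mat`). For `p ∈ triU0` and a copy at `w`: if `chi w = 0` the label is even and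
`p - w ∈ triB` (`triB` is invariant under the matrices of even labels), if `chi w = 1` the label is odd
and `-(p - w) ∈ triB`. In each of the six cases (three closed rhombi) two linear forms of `w` are in
open intervals of length two, which leaves finitely many `w`; the condition on `chi w` kills all but
`w = 0` and `w = (1, 0)`. Compare `hexB_sep` in `JG/GridHex.lean`.

`tri_cover`: with `z0 = (⌊x⌋, ⌊x + y⌋ - ⌊x⌋)` the point `p - z0` is in the closed rhombus `triD0`, the
union of the two fine triangles `0, (1,0), (0,1)` and `0, (1,0), (1,-1)`. Each fine triangle has one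
vertex of each type; if `u` is the vertex of type `0` and `u + dir i` the one of type `1` then `i` is
even and the triangle is contained in `u` plus the closed rhombus of direction `i` (six cases).
`triD0_closure` in `DefsT.lean` gives closure membership.
-/

namespace Pool.H3JG

open Set

theorem SepT_D0_flip : ∀ p ∈ triD0, (hexMat (0, true)).ap p ∈ triD0 := by
  rintro p ⟨h1, h2, h3, h4⟩
  rw [GridHex_flip]
  refine ⟨?_, ?_, ?_, ?_⟩ <;> simp only <;> linarith

theorem SepT_ev_sub : ∀ i k : ZMod 6, ev i = true → ev k = true → ev (i - k) = true := by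
  decide

theorem SepT_ev_sub' : ∀ i k : ZMod 6, ev i = true → ev k = true → ev (-i - k) = true := by
  decide

/-- the star is invariant under the even labels -/
theorem SepT_B_inv (a : Lab 6) (ha : ev a.1 = true) : ∀ p ∈ triB, (hexMat a).ap p ∈ triB := by
  obtain ⟨k, f⟩ := a
  rintro p ⟨i, hev, hi⟩
  simp only at ha
  cases f
  · refine ⟨i - k, SepT_ev_sub i k hev ha, ?_⟩
    rw [← Mat.ap_mul, ← GridHex_mul]
    have h : lmul (i - k, false) (k, false) = (i, false) := by simp [lmul, sg]
    rw [h]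
    exact hi
  · refine ⟨-i - k, SepT_ev_sub' i k hev ha, ?_⟩
    rw [← Mat.ap_mul, ← GridHex_mul]
    have h : lmul (-i - k, false) (k, true) = lmul (0, true) (i, false) := by simp [lmul, sg]
    rw [h, GridHex_mul, Mat.ap_mul]
    exact SepT_D0_flip _ hi

theorem SepT_B_neg (a : Lab 6) (ha : ev a.1 = false) : ∀ p ∈ triB,
    (hexMat (3, false)).ap ((hexMat a).ap p) ∈ triB := by
  intro p hp
  rw [← Mat.ap_mul, ← GridHex_mul]
  refine SepT_B_inv _ ?_ p hp
  rw [ev_lmul, ha]
  decide

theorem SepT_ev_cases : ∀ i : ZMod 6, ev i = true → i = 0 ∨ i = 2 ∨ i = 4 := by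
  decide

theorem SepT_chi0 {m n : ℤ} (h : chi (m, n) = 0) : (m - n) % 3 = 0 := by
  unfold chi at h
  have h0 : (0 : ZMod 3) = ((0 : ℤ) : ZMod 3) := by norm_num
  rw [h0, ZMod.intCast_eq_intCast_iff] at h
  unfold Int.ModEq at h
  norm_num at h
  omega

theorem SepT_chi1 {m n : ℤ} (h : chi (m, n) = 1) : (m - n) % 3 = 1 := by
  unfold chi at h
  have h0 : (1 : ZMod 3) = ((1 : ℤ) : ZMod 3) := by norm_num
  rw [h0, ZMod.intCast_eq_intCast_iff] at h
  unfold Int.ModEq at h
  norm_num at h
  omega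

/-- type `0` -/
theorem SepT_even {x y : ℝ} (hp : ((x, y) : V) ∈ triU0) {m n : ℤ} (hc : (m - n) % 3 = 0)
    (h : ((x - m, y - n) : V) ∈ triB) : m = 0 ∧ n = 0 := by
  obtain ⟨h1, h2, h3, h4⟩ := hp
  simp only at h1 h2 h3 h4
  obtain ⟨i, hev, hi⟩ := h
  rcases SepT_ev_cases i hev with rfl | rfl | rfl
  · rw [GridHex_m0] at hi
    obtain ⟨k1, k2, k3, k4⟩ := hi
    simp only at k1 k2 k3 k4
    have e1 : m < 1 := by exact_mod_cast (by linarith : (m : ℝ) < 1)
    have e2 : -1 < m := by exact_mod_cast (by linarith : (-1 : ℝ) < m)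
    have e3 : m + n < 1 := by exact_mod_cast (by linarith : (m : ℝ) + n < 1)
    have e4 : -1 < m + n := by exact_mod_cast (by linarith : (-1 : ℝ) < m + n)
    omega
  · rw [GridHex_m2] at hi
    obtain ⟨k1, k2, k3, k4⟩ := hi
    simp only at k1 k2 k3 k4
    have e1 : 0 < m + n := by exact_mod_cast (by linarith : (0 : ℝ) < m + n)
    have e2 : m + n < 2 := by exact_mod_cast (by linarith : (m : ℝ) + n < 2)
    have e3 : n < 2 := by exact_mod_cast (by linarith : (n : ℝ) < 2)
    have e4 : -1 < n := by exact_mod_cast (by linarith : (-1 : ℝ) < n)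
    omega
  · rw [GridHex_m4] at hi
    obtain ⟨k1, k2, k3, k4⟩ := hi
    simp only at k1 k2 k3 k4
    have e1 : 0 < m := by exact_mod_cast (by linarith : (0 : ℝ) < m)
    have e2 : m < 2 := by exact_mod_cast (by linarith : (m : ℝ) < 2)
    have e3 : n < 1 := by exact_mod_cast (by linarith : (n : ℝ) < 1)
    have e4 : -2 < n := by exact_mod_cast (by linarith : (-2 : ℝ) < n)
    omega

/-- type `1` -/
theorem SepT_odd {x y : ℝ} (hp : ((x, y) : V) ∈ triU0) {m n : ℤ} (hc : (m - n) % 3 = 1)
    (h : ((-(x - m), -(y - n)) : V) ∈ triB) : m = 1 ∧ n = 0 := by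
  obtain ⟨h1, h2, h3, h4⟩ := hp
  simp only at h1 h2 h3 h4
  obtain ⟨i, hev, hi⟩ := h
  rcases SepT_ev_cases i hev with rfl | rfl | rfl
  · rw [GridHex_m0] at hi
    obtain ⟨k1, k2, k3, k4⟩ := hi
    simp only at k1 k2 k3 k4
    have e1 : m < 2 := by exact_mod_cast (by linarith : (m : ℝ) < 2)
    have e2 : 0 < m := by exact_mod_cast (by linarith : (0 : ℝ) < m)
    have e3 : m + n < 2 := by exact_mod_cast (by linarith : (m : ℝ) + n < 2)
    have e4 : 0 < m + n := by exact_mod_cast (by linarith : (0 : ℝ) < m + n)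
    omega
  · rw [GridHex_m2] at hi
    obtain ⟨k1, k2, k3, k4⟩ := hi
    simp only at k1 k2 k3 k4
    have e1 : -1 < m + n := by exact_mod_cast (by linarith : (-1 : ℝ) < m + n)
    have e2 : m + n < 1 := by exact_mod_cast (by linarith : (m : ℝ) + n < 1)
    have e3 : n < 1 := by exact_mod_cast (by linarith : (n : ℝ) < 1)
    have e4 : -2 < n := by exact_mod_cast (by linarith : (-2 : ℝ) < n)
    omega
  · rw [GridHex_m4] at hi
    obtain ⟨k1, k2, k3, k4⟩ := hi
    simp only at k1 k2 k3 k4
    have e1 : -1 < m := by exact_mod_cast (by linarith : (-1 : ℝ) < m)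
    have e2 : m < 1 := by exact_mod_cast (by linarith : (m : ℝ) < 1)
    have e3 : n < 2 := by exact_mod_cast (by linarith : (n : ℝ) < 2)
    have e4 : -1 < n := by exact_mod_cast (by linarith : (-1 : ℝ) < n)
    omega

theorem SepT_zero {x : V} (hx : x ∈ triB) {q : V} (hq : q ∈ triU0) {w : Z2} {a : Lab 6}
    (ha : OkT w a) (he : q = toV w + (hexMat a).ap x) : w = 0 ∨ w = hexDir 0 := by
  obtain ⟨m, n⟩ := w
  obtain ⟨u, v⟩ := q
  have hr : (hexMat a).ap x = ((u - m, v - n) : V) := by
    have h : (hexMat a).ap x = ((u, v) : V) - toV (m, n) := by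
      rw [he]
      exact (add_sub_cancel_left _ _).symm
    rw [h]
    rfl
  rcases ha with ⟨hc, hev⟩ | ⟨hc, hev⟩
  · left
    have h1 := SepT_B_inv a hev x hx
    rw [hr] at h1
    obtain ⟨e1, e2⟩ := SepT_even hq (SepT_chi0 hc) h1
    exact Prod.ext e1 e2
  · right
    have h1 := SepT_B_neg a hev x hx
    rw [hr, GridHex_m3] at h1
    obtain ⟨e1, e2⟩ := SepT_odd hq (SepT_chi1 hc) h1
    rw [show hexDir 0 = (1, 0) from rfl]
    exact Prod.ext e1 e2

theorem tri_sep {T : Set V} (hB : T ⊆ triB) {d : ZMod 6} (hd : ev d = true) {p : V}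
    (hp : p ∈ gridTri.U d) {w : Z2} {a : Lab 6} (ha : OkT w a)
    (hw : p ∈ gridTri.tile T w a) : w = 0 ∨ w = hexDir d := by
  obtain ⟨q, hq, hqp⟩ := hp
  obtain ⟨x, hxT, hxp⟩ := hw
  have hdl : linv ((d, false) : Lab 6) = (-d, false) := by simp [linv]
  have h1 : q = (hexMat (linv (d, false))).ap p := by
    rw [← hqp]
    exact (gridTri.ap_linv_ap (d, false) q).symm
  have hev : ev (linv ((d, false) : Lab 6)).1 = true := by
    rw [ev_linv]
    exact hd
  have h2 : q = toV ((hexMat (linv (d, false))).apZ w) +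
      (hexMat (lmul (linv (d, false)) a)).ap x := by
    rw [h1, ← hxp]
    show (hexMat (linv (d, false))).ap (toV w + (hexMat a).ap x) = _
    rw [Mat.ap_add, ← toV_apZ, ← Mat.ap_mul, ← GridHex_mul]
  have hok : OkT ((hexMat (linv (d, false))).apZ w) (lmul (linv (d, false)) a) := by
    unfold OkT
    rw [chi_mat, ev_lmul, hev]
    rcases ha with ⟨c1, e1⟩ | ⟨c1, e1⟩
    · left
      rw [e1]
      exact ⟨c1, rfl⟩
    · right
      rw [e1]
      exact ⟨c1, rfl⟩
  have hback : (hexMat (d, false)).apZ ((hexMat (linv (d, false))).apZ w) = w :=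
    gridTri.apZ_apZ_linv (d, false) w
  rcases SepT_zero (hB hxT) hq hok h2 with h | h
  · left
    rw [← hback, h, Mat.apZ_zero]
  · right
    rw [← hback, h]
    have h3 := gridTri.mat_dir (d, false) 0
    have h4 : act ((d, false) : Lab 6) 0 = d := by simp [act, sg]
    rw [h4] at h3
    exact h3

theorem SepT_mem (i : ZMod 6) (r : V) (h : (hexMat (linv (i, false))).ap r ∈ triD0) :
    r ∈ closure (gridTri.U i) := by
  have h1 : (hexMat (i, false)).ap ((hexMat (linv (i, false))).ap r) = r :=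
    gridTri.ap_ap_linv (i, false) r
  have h2 : (hexMat (i, false)).ap '' closure triU0 ⊆ closure ((hexMat (i, false)).ap '' triU0) :=
    image_closure_subset_closure_image (Mat.continuous_ap _)
  rw [← h1]
  exact h2 ⟨_, triD0_closure h, rfl⟩

theorem tri_cover (p : V) : ∃ z : Z2, chi z = 0 ∧ ∃ i : ZMod 6, ev i = true ∧
    ∃ q ∈ closure (gridTri.U i), p = toV z + q := by
  obtain ⟨x, y⟩ := p
  have a1 := Int.floor_le x
  have a2 := Int.lt_floor_add_one x
  have b1 := Int.floor_le (x + y)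
  have b2 := Int.lt_floor_add_one (x + y)
  obtain ⟨m, hm⟩ : ∃ m : ℤ, m = ⌊x⌋ := ⟨_, rfl⟩
  obtain ⟨n, hn⟩ : ∃ n : ℤ, n = ⌊x + y⌋ - ⌊x⌋ := ⟨_, rfl⟩
  have hmn : ((⌊x + y⌋ : ℤ) : ℝ) = m + n := by
    have : ⌊x + y⌋ = m + n := by omega
    rw [this]
    push_cast
    ring
  rw [hmn] at b1 b2
  rw [← hm] at a1 a2
  -- the general step
  have step : ∀ (z : Z2) (i : ZMod 6), chi z = 0 → ev i = true →
      (hexMat (linv (i, false))).ap ((x, y) - toV z) ∈ triD0 →
      ∃ z : Z2, chi z = 0 ∧ ∃ i : ZMod 6, ev i = true ∧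
        ∃ q ∈ closure (gridTri.U i), ((x, y) : V) = toV z + q := by
    intro z i hz hi h
    exact ⟨z, hz, i, hi, _, SepT_mem i _ h, (add_sub_cancel (toV z) ((x, y) : V)).symm⟩
  have l0 : linv ((0, false) : Lab 6) = (0, false) := by decide
  have l2 : linv ((2, false) : Lab 6) = (4, false) := by decide
  have l4 : linv ((4, false) : Lab 6) = (2, false) := by decide
  have hchi : chi (m, n) = 0 ∨ chi (m, n) = 1 ∨ chi (m, n) = 2 := by
    have key : ∀ c : ZMod 3, c = 0 ∨ c = 1 ∨ c = 2 := by decide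
    exact key _
  rcases hchi with hc | hc | hc
  · refine step (m, n) 0 hc (by decide) ?_
    rw [l0, GridHex_m0]
    simp only [toV, Prod.mk_sub_mk]
    refine ⟨?_, ?_, ?_, ?_⟩ <;> simp only <;> linarith
  · rcases le_total 0 (y - n) with hy | hy
    · refine step ((m, n) + (0, 1)) 4 (by rw [chi_add, hc]; decide) (by decide) ?_
      rw [l4, GridHex_m2]
      simp only [toV, Prod.mk_sub_mk, Prod.mk_add_mk]
      push_cast
      refine ⟨?_, ?_, ?_, ?_⟩ <;> simp only <;> linarith
    · refine step ((m, n) + (1, -1)) 2 (by rw [chi_add, hc]; decide) (by decide) ?_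
      rw [l2, GridHex_m4]
      simp only [toV, Prod.mk_sub_mk, Prod.mk_add_mk]
      push_cast
      refine ⟨?_, ?_, ?_, ?_⟩ <;> simp only <;> linarith
  · rcases le_total 0 (y - n) with hy | hy
    · refine step ((m, n) + (1, 0)) 2 (by rw [chi_add, hc]; decide) (by decide) ?_
      rw [l2, GridHex_m4]
      simp only [toV, Prod.mk_sub_mk, Prod.mk_add_mk]
      push_cast
      refine ⟨?_, ?_, ?_, ?_⟩ <;> simp only <;> linarith
    · refine step ((m, n) + (1, 0)) 4 (by rw [chi_add, hc]; decide) (by decide) ?_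
      rw [l4, GridHex_m2]
      simp only [toV, Prod.mk_sub_mk, Prod.mk_add_mk]
      push_cast
      refine ⟨?_, ?_, ?_, ?_⟩ <;> simp only <;> linarith

end Pool.H3JG
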