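import Pool.Agent.Helper3.JT.CellT
import Pool.Agent.Helper3.JT.SepT

/-!
# Jigsaw tiles on the triangular tiling: order two cells are at the edges

Every point `p` is `toV z + q` with `q` in the closed cell of an even direction `i` and `chi z = 0`
(`tri_cover`); by `tri_cell2` and continuity `z` and `z + dir i` are weakly nearest to `p` among the
centres. If `p` is in `Cell TriangleCentres w` then `0` and `w` are strictly nearest, so
`{z, z + dir i} = {0, w}`.
-/

namespace Pool.H3JG

open Set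

private theorem CellT1_weak {i : ZMod 6} (hi : ev i = true) {q : V}
    (hq : q ∈ closure (gridTri.U i)) (z : Z2) (hz : chi z ≠ 2) (h0 : z ≠ 0) (hi2 : z ≠ hexDir i) :
    ‖hexF q‖ ≤ ‖hexF (q - toV z)‖ ∧ ‖hexF (q - toV (hexDir i))‖ ≤ ‖hexF (q - toV z)‖ := by
  have hc : Continuous hexF := RealHex_F.continuous
  have hcl : IsClosed ({q : V | ‖hexF q‖ ≤ ‖hexF (q - toV z)‖} ∩
      {q : V | ‖hexF (q - toV (hexDir i))‖ ≤ ‖hexF (q - toV z)‖}) := by
    refine IsClosed.inter (isClosed_le ?_ ?_) (isClosed_le ?_ ?_) <;> fun_prop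
  have h := closure_minimal (fun p hp => ?_) hcl hq
  · exact h
  · have h1 : CellT_P (hexDir i) p := by
      have h2 : hexF p ∈ Cell TriangleCentres (hexF (toV (hexDir i))) := by
        rw [tri_cell2 i hi]
        exact ⟨p, hp, rfl⟩
      rw [CellT_cell] at h2
      exact (CellT_mem p _).1 h2
    have h3 := h1 z hz h0 hi2
    exact ⟨h3.1.le, h3.2.le⟩

theorem tri_cell1 {w : E} (hw : w ∈ TriangleCentres) (h0 : w ≠ 0) :
    Cell TriangleCentres w ⊆ ⋃ e ∈ {e : ZMod 6 | ev e = true}, hexF '' gridTri.U e := by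
  rw [triangleCentres_eq] at hw
  obtain ⟨w', hw', rfl⟩ := hw
  have hw'' : chi w' ≠ 2 := hw'
  intro x hx
  have hx0 := hx
  simp only at hx
  rw [CellT_cell] at hx
  obtain ⟨p, hp, rfl⟩ := hx
  have hP : CellT_P w' p := hp
  have hw0 : w' ≠ 0 := by
    rintro rfl
    apply h0
    simp only
    rw [toV_zero, CellHex_hexF_zero]
  obtain ⟨z, hz, i, hi, q, hq, hpq⟩ := tri_cover p
  have hz2 : chi z ≠ 2 := by
    rw [hz]
    decide
  have hz12 : chi (z + hexDir i) ≠ 2 := (nb_iff hz2 i).2 (Or.inl ⟨hz, hi⟩)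
  have hdir : hexDir i ≠ 0 := gridHex.dir_ne i
  have key : ∀ u, chi u ≠ 2 → u ≠ z → u ≠ z + hexDir i →
      ‖hexF (p - toV z)‖ ≤ ‖hexF (p - toV u)‖ ∧
        ‖hexF (p - toV (z + hexDir i))‖ ≤ ‖hexF (p - toV u)‖ := by
    intro u hu h1 h2
    have h3 := CellT1_weak hi hq (u - z)
      (by rw [sub_eq_add_neg, chi_add, chi_neg, hz, neg_zero, add_zero]; exact hu)
      (sub_ne_zero.2 h1) (by intro h; apply h2; rw [← h]; abel)
    have e1 : p - toV z = q := by
      rw [hpq]
      abel
    have e2 : p - toV u = q - toV (u - z) := by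
      rw [hpq, sub_eq_add_neg u z, toV_add, toV_neg]
      abel
    have e3 : p - toV (z + hexDir i) = q - toV (hexDir i) := by
      rw [hpq, toV_add]
      abel
    rw [e1, e2, e3]
    exact h3
  have k0 : chi 0 ≠ 2 := by
    rw [chi_zero]
    decide
  have c1 : z = 0 ∨ z = w' := by
    by_contra hcon
    rw [not_or] at hcon
    have h3 := hP z hz2 hcon.1 hcon.2
    by_cases h4 : (0 : Z2) = z + hexDir i
    · have h5 := (key w' hw'' (Ne.symm hcon.2) (by rw [← h4]; exact hw0)).1
      exact absurd h3.2 (not_lt.2 h5)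
    · have h5 := (key 0 k0 (Ne.symm hcon.1) h4).1
      rw [toV_zero, sub_zero] at h5
      exact absurd h3.1 (not_lt.2 h5)
  have c2 : z + hexDir i = 0 ∨ z + hexDir i = w' := by
    by_contra hcon
    rw [not_or] at hcon
    have h3 := hP (z + hexDir i) hz12 hcon.1 hcon.2
    by_cases h4 : (0 : Z2) = z
    · have h5 := (key w' hw'' (by rw [← h4]; exact hw0) (Ne.symm hcon.2)).2
      exact absurd h3.2 (not_lt.2 h5)
    · have h5 := (key 0 k0 h4 (Ne.symm hcon.1)).2
      rw [toV_zero, sub_zero] at h5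
      exact absurd h3.1 (not_lt.2 h5)
  rcases c1 with c1 | c1
  · rcases c2 with c2 | c2
    · rw [c1, zero_add] at c2
      exact absurd c2 hdir
    · rw [c1, zero_add] at c2
      rw [← c2, tri_cell2 i hi] at hx0
      exact mem_iUnion₂.2 ⟨i, hi, hx0⟩
  · rcases c2 with c2 | c2
    · exfalso
      have h6 := chi_add z (hexDir i)
      rw [c2, chi_zero, hz, chi_dir, hi, if_pos rfl] at h6
      exact absurd h6 (by decide)
    · rw [← c1] at c2
      exact absurd (add_eq_left.1 c2) hdir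

end Pool.H3JG
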