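import Pool.Agent.Helper3.JG.Hex6
import Pool.Agent.Helper3.JG.Root
import Pool.Agent.Helper3.JT.OkT

/-!
# Jigsaw tiles on the triangular tiling: soundness of the certificate check

The check of `JG/Fast.lean`, with cells of type `0` and `1` only and with the parity of the labels.
-/

namespace Pool.H3JG

/-- Labels of the wrong parity at the cell `c`. -/
def pmT (c : ℕ) : ℕ := if (c / 64 + 2 * (c % 64)) % 3 = 0 then 3276 else 819

/-- The cell `c` is a place. -/
def vT (c : ℕ) : Bool := !(Nat.beq ((c / 64 + 2 * (c % 64)) % 3) 2)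

/-- Check of a forest against a list of packed assignments. -/
def chkGT (dl : List (ℕ × ℕ)) (F : ℕ) : Fo → List ℕ → Bool
  | Fo.nil, [] => true
  | Fo.nil, _ :: _ => false
  | Fo.cons _ _ _, [] => false
  | Fo.cons c ch rest, A :: ss =>
    (cellOK c && Nat.beq (lk A c) 0 && vT c) &&
      chkGT dl F ch (expandN (forb F A c dl ||| pmT c) c A 12) &&
      chkGT dl F rest ss

/-- Check of a decision tree. -/
def chkT (dl : List (ℕ × ℕ)) (pats : List (ℕ × ℕ × List ℕ)) (TM : List ℕ) : Tr → ℕ → ℕ → Bool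
  | Tr.T k, inn, _ => match TM[k]? with
    | some m => Nat.beq (m &&& inn) m
    | none => false
  | Tr.D b1 b2 b3 b4 b5 x, inn, out =>
    inn.testBit b1 && inn.testBit b2 && inn.testBit b3 && okD 6 b1 b2 b3 b4 b5 &&
      chkT dl pats TM x (inn ||| 2 ^ b4 ||| 2 ^ b5) out
  | Tr.S _ _ _ _ _, _, _ => false
  | Tr.C b, inn, out => inn.testBit b && out.testBit b
  | Tr.Y b b' x y, inn, out => okM 6 b b' &&
      chkT dl pats TM x (inn ||| 2 ^ b ||| 2 ^ b') out &&
      chkT dl pats TM y inn (out ||| 2 ^ b ||| 2 ^ b')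
  | Tr.R x, _, out => chkGT dl (mkF out pats) x [1 <<< 5200]

theorem chi_decC (c : ℕ) : chi (decC c) = (((c / 64 + 2 * (c % 64)) % 3 : ℕ) : ZMod 3) := by
  unfold chi decC
  rw [ZMod.natCast_mod]
  simp only [Int.cast_sub, Int.cast_natCast, Nat.cast_add, Nat.cast_mul, Nat.cast_ofNat]
  have h : (2 : ZMod 3) = -1 := by decide
  rw [h]
  ring

theorem vT_iff (c : ℕ) : vT c = true ↔ chi (decC c) ≠ 2 := by
  rw [chi_decC]
  unfold vT
  have h : (c / 64 + 2 * (c % 64)) % 3 < 3 := Nat.mod_lt _ (by norm_num)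
  generalize (c / 64 + 2 * (c % 64)) % 3 = r at h
  have hr : r = 0 ∨ r = 1 ∨ r = 2 := by omega
  rcases hr with rfl | rfl | rfl <;> decide

theorem pmT_false {c a : ℕ} (ha : a < 12) (h : OkT (decC c) (labN 6 a)) :
    (pmT c).testBit a = false := by
  unfold OkT at h
  rw [chi_decC] at h
  unfold pmT
  have h3 : (c / 64 + 2 * (c % 64)) % 3 < 3 := Nat.mod_lt _ (by norm_num)
  generalize (c / 64 + 2 * (c % 64)) % 3 = r at h h3
  have key : ∀ r < 3, ∀ a < 12, (((r : ℕ) : ZMod 3) = 0 ∧ ev (labN 6 a).1 = true) ∨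
      (((r : ℕ) : ZMod 3) = 1 ∧ ev (labN 6 a).1 = false) →
      (if r = 0 then 3276 else 819 : ℕ).testBit a = false := by
    decide +kernel
  exact key r h3 a ha h

variable {R : ZMod 6 → ZMod 6 → Bool → Prop} {g : Z2 → Lab 6} {dl : List (ℕ × ℕ)} {out : ℕ}

/-- A packed assignment agrees with a labelling, and all its cells are places. -/
def AgreeT (g : Z2 → Lab 6) (A : ℕ) : Prop :=
  ∀ q, lk A q ≠ 0 → chi (decC q) ≠ 2 ∧ g (decC q) = labN 6 (lk A q - 1) ∧ lk A q - 1 < 12

theorem not_forbT (hg : ConT R g) (hout : ∀ b, out.testBit b = true → ¬ Rb R b)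
    (hdl : ∀ e ∈ dl, e.1 < 6 ∧ ∀ c, cellOK c = true →
      decC (c + e.2 - 4096) = decC c + hexDir (e.1 : ZMod 6))
    {pats : List (ℕ × ℕ × List ℕ)} (hp : patOK 6 3 pats = true)
    {A c a : ℕ} (hc : cellOK c = true) (hv : chi (decC c) ≠ 2) (hA : AgreeT g A) (ha : a < 12)
    (hga : g (decC c) = labN 6 a) : (forb (mkF out pats) A c dl).testBit a = false := by
  by_contra hcon
  rw [Bool.not_eq_false] at hcon
  obtain ⟨e, he, ha16, hF⟩ := testBit_forb dl hcon
  obtain ⟨k, hk, hpos⟩ := testBit_mkF pats hp hF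
  have hlk := lk_lt A (c + e.2 - 4096)
  set v := lk A (c + e.2 - 4096) with hv'
  have h1 : (16 * (16 * e.1 + v) + a) % 16 = a := by omega
  have h2 : (16 * (16 * e.1 + v) + a) / 16 % 16 = v := by omega
  have h3 : (16 * (16 * e.1 + v) + a) / 256 = e.1 := by omega
  unfold posOK at hpos
  rw [h1, h2, h3] at hpos
  simp only [Bool.and_eq_true, Nat.beq_eq, Nat.ble_eq] at hpos
  obtain ⟨⟨⟨⟨p1, _⟩, _⟩, _⟩, p5⟩ := hpos
  obtain ⟨hd, hdc⟩ := hdl e he
  have hv0 : v ≠ 0 := by omega
  obtain ⟨h6, h4, h5⟩ := hA _ hv0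
  have hcon2 := hg.2 (decC c) (e.1 : ZMod 6) hv (by rw [← hdc c hc]; exact h6)
  rw [← hdc c hc, hga, h4] at hcon2
  have hcon3 : Con ((3 : ℕ) : ZMod 6) R ((e.1 : ℕ) : ZMod 6) (labN 6 a) (labN 6 (v - 1)) := hcon2
  rw [con_iff_cbN R ha h5 hd, p5] at hcon3
  exact hout k hk hcon3

theorem chkGT_sound (hg : ConT R g) (hout : ∀ b, out.testBit b = true → ¬ Rb R b)
    (hdl : ∀ e ∈ dl, e.1 < 6 ∧ ∀ c, cellOK c = true →
      decC (c + e.2 - 4096) = decC c + hexDir (e.1 : ZMod 6))
    {pats : List (ℕ × ℕ × List ℕ)} (hp : patOK 6 3 pats = true)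
    (f : Fo) : ∀ ss, chkGT dl (mkF out pats) f ss = true → ∀ A ∈ ss, ¬ AgreeT g A := by
  induction f with
  | nil =>
    intro ss hss s hs
    cases ss with
    | nil => simp at hs
    | cons a l => simp [chkGT] at hss
  | cons c ch rest ih1 ih2 =>
    intro ss hss s hs
    cases ss with
    | nil => simp at hs
    | cons A l =>
      unfold chkGT at hss
      simp only [Bool.and_eq_true, Nat.beq_eq] at hss
      obtain ⟨⟨⟨⟨hc, hA0⟩, hv⟩, h1⟩, h2⟩ := hss
      rw [vT_iff] at hv
      rcases List.mem_cons.1 hs with rfl | hs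
      · intro hag
        obtain ⟨k, hk, hlab⟩ := labN_surj (g (decC c))
        have hk12 : k < 12 := hk
        have hnf := not_forbT hg hout hdl hp hc hv hag hk12 hlab.symm
        have hpm : (pmT c).testBit k = false := by
          apply pmT_false hk12
          rw [hlab]
          exact hg.1 _ hv
        have hnf2 : (forb (mkF out pats) s c dl ||| pmT c).testBit k = false := by
          rw [Nat.testBit_or, hnf, hpm]
          rfl
        have hmem := mem_expandN (c := c) (A := s) hnf2 12 hk12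
        refine ih1 _ h1 _ hmem ?_
        intro q hq
        rw [lk_ins hA0 (by omega)] at hq ⊢
        by_cases hqc : q = c
        · subst hqc
          rw [if_pos rfl]
          exact ⟨hv, hlab.symm, hk12⟩
        · rw [if_neg hqc] at hq ⊢
          exact hag q hq
      · exact ih2 _ h2 s hs

theorem chkT_sound (hR : Closed R) (TM : List ℕ) (hg : ConT R g)
    (hdl : ∀ e ∈ dl, e.1 < 6 ∧ ∀ c, cellOK c = true →
      decC (c + e.2 - 4096) = decC c + hexDir (e.1 : ZMod 6))
    {pats : List (ℕ × ℕ × List ℕ)} (hp : patOK 6 3 pats = true)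
    (hroot : g (20, 20) = (0, false)) (x : Tr) :
    ∀ inn out : ℕ, chkT dl pats TM x inn out = true →
      (∀ b, inn.testBit b = true → Rb R b) → (∀ b, out.testBit b = true → ¬ Rb R b) →
      ∃ m ∈ TM, ∀ b, m.testBit b = true → Rb R b := by
  induction x with
  | T k =>
    intro inn out hc hinn hout
    unfold chkT at hc
    cases hm : TM[k]? with
    | none => simp [hm] at hc
    | some m =>
      simp only [hm, Nat.beq_eq] at hc
      refine ⟨m, List.mem_of_getElem? hm, fun b hb => hinn b ?_⟩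
      rw [← hc, Nat.testBit_and, Bool.and_eq_true] at hb
      exact hb.2
  | D b1 b2 b3 b4 b5 x ih =>
    intro inn out hc hinn hout
    unfold chkT at hc
    simp only [Bool.and_eq_true] at hc
    obtain ⟨⟨⟨⟨c1, c2⟩, c3⟩, c4⟩, c5⟩ := hc
    obtain ⟨r4, r5⟩ := rb_chain hR (hinn _ c1) (hinn _ c2) (hinn _ c3) c4
    exact ih _ _ c5 (rb_insert hinn r4 r5) hout
  | S b1 b2 b4 b5 x ih =>
    intro inn out hc hinn hout
    unfold chkT at hc
    exact absurd hc (by simp)
  | C b =>
    intro inn out hc hinn hout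
    unfold chkT at hc
    rw [Bool.and_eq_true] at hc
    exact absurd (hinn _ hc.1) (hout _ hc.2)
  | Y b b' x y ih1 ih2 =>
    intro inn out hc hinn hout
    unfold chkT at hc
    simp only [Bool.and_eq_true] at hc
    obtain ⟨⟨c0, c1⟩, c2⟩ := hc
    by_cases hb : Rb R b
    · exact ih1 _ _ c1 (rb_insert hinn hb (rb_mirror hR c0 hb)) hout
    · exact ih2 _ _ c2 hinn
        (rb_insert_not hout hb fun hb' => hb (rb_mirror hR (okM_symm c0) hb'))
  | R f =>
    intro inn out hc hinn hout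
    unfold chkT at hc
    exfalso
    refine chkGT_sound hg hout hdl hp f _ hc (1 <<< 5200) List.mem_cons_self ?_
    intro q hq
    have h0 : lk 0 1300 = 0 := by unfold lk; simp
    have h1 := lk_ins (A := 0) (c := 1300) (v := 1) h0 (by norm_num) q
    have h2 : (0 ||| (1 <<< (4 * 1300)) : ℕ) = 1 <<< 5200 := by rw [Nat.zero_or]
    rw [h2] at h1
    rw [h1] at hq ⊢
    by_cases hqc : q = 1300
    · subst hqc
      rw [if_pos rfl]
      refine ⟨by decide, ?_, by omega⟩
      simpa [labN, decC] using hroot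
    · rw [if_neg hqc] at hq
      exact absurd (by unfold lk; simp) hq

/-- Normalisation of a labelling at one place of type `0`. -/
theorem exists_rootT {R : ZMod 6 → ZMod 6 → Bool → Prop} {g : Z2 → Lab 6} (hg : ConT R g)
    {p : Z2} (hp : chi p = 0) : ∃ g' : Z2 → Lab 6, ConT R g' ∧ g' p = (0, false) := by
  have hp2 : chi p ≠ 2 := by rw [hp]; decide
  have hpe : ev (g p).1 = true := by
    rcases hg.1 p hp2 with h | h
    · exact h.2
    · rw [hp] at h
      exact absurd h.1 (by decide)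
  have hchi : ∀ w, chi (p + (hexMat (g p)).apZ (w - p)) = chi w := by
    intro w
    rw [chi_add, chi_mat, hpe, if_pos rfl, sub_eq_add_neg, chi_add, chi_neg, hp]
    ring
  have hinv : ev (linv (g p)).1 = true := by rw [ev_linv, hpe]
  refine ⟨fun w => lmul (linv (g p)) (g (p + (hexMat (g p)).apZ (w - p))), ⟨?_, ?_⟩, ?_⟩
  · intro w hw
    have h1 := hg.1 (p + (hexMat (g p)).apZ (w - p)) (by rw [hchi]; exact hw)
    unfold OkT at h1 ⊢
    rw [hchi] at h1
    show (chi w = 0 ∧ ev (lmul (linv (g p)) (g (p + (hexMat (g p)).apZ (w - p)))).1 = true) ∨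
      (chi w = 1 ∧ ev (lmul (linv (g p)) (g (p + (hexMat (g p)).apZ (w - p)))).1 = false)
    rw [ev_lmul, hinv]
    rcases h1 with h1 | h1
    · left
      exact ⟨h1.1, by rw [h1.2]; rfl⟩
    · right
      exact ⟨h1.1, by rw [h1.2]; rfl⟩
  · intro z d hz hzd
    show Con 3 R d (lmul (linv (g p)) (g (p + (hexMat (g p)).apZ (z - p))))
      (lmul (linv (g p)) (g (p + (hexMat (g p)).apZ (z + hexDir d - p))))
    rw [con_lmul (by decide), linv_linv]
    have h1 : p + (hexMat (g p)).apZ (z + hexDir d - p)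
        = p + (hexMat (g p)).apZ (z - p) + hexDir (act (g p) d) := by
      have h2 : z + hexDir d - p = (z - p) + hexDir d := by abel
      have h3 : (hexMat (g p)).apZ (hexDir d) = hexDir (act (g p) d) := gridHex.mat_dir (g p) d
      rw [h2, Mat.apZ_add, h3, add_assoc]
    have h4 := hchi (z + hexDir d)
    rw [h1] at h4
    rw [h1]
    exact hg.2 _ _ (by rw [hchi]; exact hz) (by rw [h4]; exact hzd)
  · show lmul (linv (g p)) (g (p + (hexMat (g p)).apZ (p - p))) = (0, false)
    rw [sub_self, Mat.apZ_zero, add_zero, linv_lmul]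

end Pool.H3JG
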