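import Pool.Agent.Helper3.JT.TmplT

/-!
# Jigsaw tiles on the triangular tiling: the templates
-/

namespace Pool.H3JG

theorem tmT_0 (R : ZMod 6 → ZMod 6 → Bool → Prop)
    (hR : ∀ b, Nat.testBit 281475245146368 b = true → Rb R b) : GoodT R :=
  good_of_tabT 3 (fun x y => (![![(0, false), (5, false), (0, false)], ![(0, false), (2, false), (3, false)], ![(1, false), (0, false), (4, false)]] : Fin 3 → Fin 3 → Lab 6) y x) R
    (mask := 281475245146368) (by norm_num) (by decide +kernel) hR

theorem tmT_1 (R : ZMod 6 → ZMod 6 → Bool → Prop)
    (hR : ∀ b, Nat.testBit 562950221857280 b = true → Rb R b) : GoodT R :=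
  good_of_tabT 6 (fun x y => (![![(0, false), (1, true), (0, false), (4, true), (3, false), (0, false)], ![(0, false), (0, false), (1, true), (0, false), (4, true), (3, false)], ![(3, false), (0, false), (0, false), (1, true), (0, false), (4, true)], ![(4, true), (3, false), (0, false), (0, false), (1, true), (0, false)], ![(0, false), (4, true), (3, false), (0, false), (0, false), (1, true)], ![(1, true), (0, false), (4, true), (3, false), (0, false), (0, false)]] : Fin 6 → Fin 6 → Lab 6) y x) R
    (mask := 562950221857280) (by norm_num) (by decide +kernel) hR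

theorem tmT_2 (R : ZMod 6 → ZMod 6 → Bool → Prop)
    (hR : ∀ b, Nat.testBit 562950490292736 b = true → Rb R b) : GoodT R :=
  good_of_tabT 3 (fun x y => (![![(0, false), (1, true), (0, false)], ![(0, false), (0, false), (1, true)], ![(1, true), (0, false), (0, false)]] : Fin 3 → Fin 3 → Lab 6) y x) R
    (mask := 562950490292736) (by norm_num) (by decide +kernel) hR

theorem tmT_3 (R : ZMod 6 → ZMod 6 → Bool → Prop)
    (hR : ∀ b, Nat.testBit 4503603922337793 b = true → Rb R b) : GoodT R :=
  good_of_tabT 3 (fun x y => (![![(0, false), (3, false), (0, false)], ![(0, false), (2, false), (1, false)], ![(5, false), (0, false), (4, false)]] : Fin 3 → Fin 3 → Lab 6) y x) R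
    (mask := 4503603922337793) (by norm_num) (by decide +kernel) hR

theorem tmT_4 (R : ZMod 6 → ZMod 6 → Bool → Prop)
    (hR : ∀ b, Nat.testBit 9007207844675585 b = true → Rb R b) : GoodT R :=
  good_of_tabT 6 (fun x y => (![![(0, false), (3, false), (0, false), (0, false), (3, false), (0, false)], ![(0, false), (0, true), (3, true), (0, false), (0, true), (3, true)], ![(3, false), (0, false), (0, false), (3, false), (0, false), (0, false)], ![(0, true), (3, true), (0, false), (0, true), (3, true), (0, false)], ![(0, false), (0, false), (3, false), (0, false), (0, false), (3, false)], ![(3, true), (0, false), (0, true), (3, true), (0, false), (0, true)]] : Fin 6 → Fin 6 → Lab 6) y x) R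
    (mask := 9007207844675585) (by norm_num) (by decide +kernel) hR

theorem tmT_5 (R : ZMod 6 → ZMod 6 → Bool → Prop)
    (hR : ∀ b, Nat.testBit 9007207844675586 b = true → Rb R b) : GoodT R :=
  good_of_tabT 3 (fun x y => (![![(0, false), (3, true), (0, false)], ![(0, false), (0, false), (3, true)], ![(3, true), (0, false), (0, false)]] : Fin 3 → Fin 3 → Lab 6) y x) R
    (mask := 9007207844675586) (by norm_num) (by decide +kernel) hR

theorem tmT_6 (R : ZMod 6 → ZMod 6 → Bool → Prop)
    (hR : ∀ b, Nat.testBit 72057594054705168 b = true → Rb R b) : GoodT R :=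
  good_of_tabT 3 (fun x y => (![![(0, false), (1, false), (0, false)], ![(0, false), (2, false), (5, false)], ![(3, false), (0, false), (4, false)]] : Fin 3 → Fin 3 → Lab 6) y x) R
    (mask := 72057594054705168) (by norm_num) (by decide +kernel) hR

theorem tmT_7 (R : ZMod 6 → ZMod 6 → Bool → Prop)
    (hR : ∀ b, Nat.testBit 72057594071482400 b = true → Rb R b) : GoodT R :=
  good_of_tabT 6 (fun x y => (![![(0, false), (5, true), (0, false), (2, true), (3, false), (0, false)], ![(0, false), (2, true), (3, false), (0, false), (0, false), (5, true)], ![(3, false), (0, false), (0, false), (5, true), (0, false), (2, true)], ![(0, false), (5, true), (0, false), (2, true), (3, false), (0, false)], ![(0, false), (2, true), (3, false), (0, false), (0, false), (5, true)], ![(3, false), (0, false), (0, false), (5, true), (0, false), (2, true)]] : Fin 6 → Fin 6 → Lab 6) y x) R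
    (mask := 72057594071482400) (by norm_num) (by decide +kernel) hR

theorem tmT_8 (R : ZMod 6 → ZMod 6 → Bool → Prop)
    (hR : ∀ b, Nat.testBit 72057594306363393 b = true → Rb R b) : GoodT R :=
  good_of_tabT 3 (fun x y => (![![(0, false), (3, false), (0, false)], ![(0, false), (0, false), (3, false)], ![(3, false), (0, false), (0, false)]] : Fin 3 → Fin 3 → Lab 6) y x) R
    (mask := 72057594306363393) (by norm_num) (by decide +kernel) hR

theorem tmT_9 (R : ZMod 6 → ZMod 6 → Bool → Prop)
    (hR : ∀ b, Nat.testBit 72057594306363394 b = true → Rb R b) : GoodT R :=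
  good_of_tabT 6 (fun x y => (![![(0, false), (3, true), (0, false), (0, false), (3, true), (0, false)], ![(0, false), (0, true), (3, false), (0, false), (0, true), (3, false)], ![(3, true), (0, false), (0, false), (3, true), (0, false), (0, false)], ![(0, true), (3, false), (0, false), (0, true), (3, false), (0, false)], ![(0, false), (0, false), (3, true), (0, false), (0, false), (3, true)], ![(3, false), (0, false), (0, true), (3, false), (0, false), (0, true)]] : Fin 6 → Fin 6 → Lab 6) y x) R
    (mask := 72057594306363394) (by norm_num) (by decide +kernel) hR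

theorem tmT_10 (R : ZMod 6 → ZMod 6 → Bool → Prop)
    (hR : ∀ b, Nat.testBit 72057594574798849 b = true → Rb R b) : GoodT R :=
  good_of_tabT 6 (fun x y => (![![(0, false), (3, false), (0, false), (4, true), (1, true), (0, false)], ![(0, false), (0, false), (3, false), (0, false), (4, true), (1, true)], ![(1, true), (0, false), (0, false), (3, false), (0, false), (4, true)], ![(4, true), (1, true), (0, false), (0, false), (3, false), (0, false)], ![(0, false), (4, true), (1, true), (0, false), (0, false), (3, false)], ![(3, false), (0, false), (4, true), (1, true), (0, false), (0, false)]] : Fin 6 → Fin 6 → Lab 6) y x) R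
    (mask := 72057594574798849) (by norm_num) (by decide +kernel) hR

theorem tmT_11 (R : ZMod 6 → ZMod 6 → Bool → Prop)
    (hR : ∀ b, Nat.testBit 144115188109410336 b = true → Rb R b) : GoodT R :=
  good_of_tabT 3 (fun x y => (![![(0, false), (5, true), (0, false)], ![(0, false), (0, false), (5, true)], ![(5, true), (0, false), (0, false)]] : Fin 3 → Fin 3 → Lab 6) y x) R
    (mask := 144115188109410336) (by norm_num) (by decide +kernel) hR

theorem tmT_12 (R : ZMod 6 → ZMod 6 → Bool → Prop)
    (hR : ∀ b, Nat.testBit 144115188344291329 b = true → Rb R b) : GoodT R :=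
  good_of_tabT 6 (fun x y => (![![(0, false), (3, false), (0, false), (2, true), (5, true), (0, false)], ![(0, false), (2, true), (5, true), (0, false), (0, false), (3, false)], ![(5, true), (0, false), (0, false), (3, false), (0, false), (2, true)], ![(0, false), (3, false), (0, false), (2, true), (5, true), (0, false)], ![(0, false), (2, true), (5, true), (0, false), (0, false), (3, false)], ![(5, true), (0, false), (0, false), (3, false), (0, false), (2, true)]] : Fin 6 → Fin 6 → Lab 6) y x) R
    (mask := 144115188344291329) (by norm_num) (by decide +kernel) hR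

theorem tmT_13 (R : ZMod 6 → ZMod 6 → Bool → Prop)
    (hR : ∀ b, Nat.testBit 144115188612726786 b = true → Rb R b) : GoodT R :=
  good_of_tabT 3 (fun x y => (![![(0, false), (3, true), (0, false)], ![(0, false), (2, false), (1, true)], ![(5, true), (0, false), (4, false)]] : Fin 3 → Fin 3 → Lab 6) y x) R
    (mask := 144115188612726786) (by norm_num) (by decide +kernel) hR

end Pool.H3JG
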