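import Pool.Agent.Helper3.JT.ChkT
import Pool.Agent.Helper3.JT.TmT

/-!
# Jigsaw tiles on the triangular tiling: the certificate and the finite core
-/

namespace Pool.H3JG

/-- The masks of the templates. -/
def TMT : List ℕ := [281475245146368, 562950221857280, 562950490292736, 4503603922337793, 9007207844675585, 9007207844675586, 72057594054705168, 72057594071482400, 72057594306363393, 72057594306363394, 72057594574798849, 144115188109410336, 144115188344291329, 144115188612726786]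

/-- The decision tree. -/
def trT : Tr :=
  (.Y 28 28 (.Y 8 48 (.T 0) (.Y 9 49 (.T 1) (.Y 0 0 (.Y 32 52 (.T 3) (.Y 33 53 (.T 4) (.Y 56 56 (.T 8) (.Y 57 57 (.T 12) (.R (.cons 1299 .nil .nil)))))) (.Y 4 24 (.D 4 28 24 0 0 (.C 0)) (.Y 5 25 (.D 5 28 25 0 0 (.C 0)) (.Y 1 1 (.Y 33 53 (.T 5) (.Y 56 56 (.T 9) (.Y 32 52 (.D 52 28 32 56 56 (.C 56)) (.Y 29 29 (.Y 57 57 (.T 13) (.R (.cons 1299 .nil .nil))) (.R (.cons 1237 (.cons 1299 (.cons 1364 (.cons 1173 (.cons 1235 (.cons 1172 .nil .nil) .nil) .nil) .nil) .nil) .nil)))))) (.R (.cons 1364 .nil .nil)))))))) (.Y 29 29 (.Y 9 49 (.T 2) (.Y 0 0 (.Y 4 24 (.D 24 0 4 28 28 (.C 28)) (.Y 5 25 (.D 0 5 29 4 24 (.C 4)) (.Y 32 52 (.T 3) (.Y 33 53 (.T 4) (.Y 56 56 (.T 10) (.Y 8 48 (.D 48 0 8 56 56 (.C 56)) (.Y 1 1 (.Y 57 57 (.T 13) (.R (.cons 1299 .nil .nil))) (.R (.cons 1237 (.cons 1299 (.cons 1364 (.cons 1173 (.cons 1235 (.cons 1238 (.cons 1362 (.cons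 1365 (.cons 1302 .nil .nil) .nil) .nil) .nil) .nil) .nil) .nil) .nil) .nil))))))))) (.Y 1 1 (.Y 33 53 (.T 5) (.Y 57 57 (.T 13) (.Y 8 48 (.D 48 1 8 57 57 (.C 57)) (.Y 32 52 (.D 52 29 32 57 57 (.C 57)) (.Y 56 56 (.Y 4 24 (.T 6) (.Y 5 25 (.T 7) (.R (.cons 1237 (.cons 1299 (.cons 1364 (.cons 1173 (.cons 1235 (.cons 1172 .nil .nil) .nil) .nil) .nil) .nil) .nil)))) (.R (.cons 1299 .nil .nil))))))) (.Y 4 24 (.D 4 29 24 1 1 (.C 1)) (.Y 5 25 (.D 5 29 25 1 1 (.C 1)) (.R (.cons 1364 (.cons 1427 (.cons 1426 (.cons 1362 (.cons 1299 (.cons 1237 (.cons 1173 (.cons 1172 (.cons 1235 .nil .nil) .nil) (.cons 1238 (.cons 1175 (.cons 1111 (.cons 1110 (.cons 1173 (.cons 1235 (.cons 1172 (.cons 1234 (.cons 1108 (.cons 1297 (.cons 1361 .nil .nil) .nil) .nil) .nil) (.cons 1172 .nil (.cons 1172 .nil .nil))) .nil) .nil) .nil) .nil) .nil) (.cons 1238 (.cons 1302 (.cons 1365 .nil .nil) .nil) .nil))) .nil) .nil)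 .nil) .nil) .nil) .nil))))))) (.Y 0 0 (.Y 4 24 (.D 24 0 4 28 28 (.C 28)) (.Y 5 25 (.D 25 0 5 28 28 (.C 28)) (.Y 32 52 (.T 3) (.Y 33 53 (.T 4) (.R (.cons 1237 .nil .nil)))))) (.Y 1 1 (.Y 4 24 (.D 24 1 4 29 29 (.C 29)) (.Y 5 25 (.D 25 1 5 29 29 (.C 29)) (.Y 33 53 (.T 5) (.R (.cons 1237 (.cons 1173 (.cons 1172 (.cons 1235 (.cons 1299 (.cons 1364 (.cons 1365 (.cons 1302 (.cons 1238 .nil .nil) .nil) (.cons 1365 (.cons 1429 (.cons 1492 (.cons 1491 (.cons 1427 (.cons 1238 (.cons 1175 (.cons 1176 (.cons 1240 (.cons 1303 (.cons 1302 .nil .nil) .nil) .nil) .nil) (.cons 1302 .nil (.cons 1175 (.cons 1111 (.cons 1110 .nil .nil) .nil) .nil))) .nil) .nil) .nil) .nil) .nil) (.cons 1427 (.cons 1426 (.cons 1362 .nil .nil) .nil) .nil))) .nil) .nil) .nil) .nil) .nil) .nil))))) (.Y 56 56 (.Y 8 48 (.D 8 56 48 0 0 (.C 0)) (.Y 9 49 (.D 9 56 49 0 0 (.C 0)) (.Y 32 52 (.D 32 56 52 28 28 (.C 28)) (.Y 33 53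 (.D 33 56 53 28 28 (.C 28)) (.Y 4 24 (.T 6) (.Y 5 25 (.T 7) (.R (.cons 1237 .nil .nil)))))))) (.Y 5 25 (.Y 57 57 (.T 11) (.Y 4 24 (.Y 8 48 (.Y 32 52 (.D 4 32 48 0 0 (.C 0)) (.Y 33 53 (.D 5 33 48 0 0 (.C 0)) (.R (.cons 1237 (.cons 1299 (.cons 1173 (.cons 1235 (.cons 1172 .nil (.cons 1172 .nil .nil)) (.cons 1235 (.cons 1172 .nil (.cons 1172 .nil .nil)) .nil)) (.cons 1173 (.cons 1235 (.cons 1172 .nil (.cons 1172 .nil .nil)) (.cons 1235 (.cons 1172 .nil (.cons 1172 .nil .nil)) .nil)) .nil)) (.cons 1299 (.cons 1173 (.cons 1235 (.cons 1172 .nil (.cons 1172 .nil .nil)) (.cons 1235 (.cons 1172 .nil (.cons 1172 .nil .nil)) .nil)) (.cons 1173 (.cons 1235 (.cons 1172 .nil (.cons 1172 .nil .nil)) (.cons 1235 (.cons 1172 .nil (.cons 1172 .nil .nil)) .nil)) .nil)) .nil)) .nil)))) (.Y 9 49 (.D 4 25 9 8 48 (.C 8)) (.R (.cons 1299 (.cons 1364 (.cons 1235 (.cons 1362 (.cons 1365 (.cons 1427 (.cons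 1426 .nil (.cons 1426 .nil .nil)) (.cons 1427 (.cons 1426 .nil (.cons 1426 .nil .nil)) .nil)) (.cons 1365 (.cons 1427 (.cons 1426 .nil (.cons 1426 .nil .nil)) (.cons 1427 (.cons 1426 .nil (.cons 1426 .nil .nil)) .nil)) .nil)) (.cons 1362 (.cons 1365 (.cons 1427 (.cons 1426 .nil (.cons 1426 .nil .nil)) (.cons 1427 (.cons 1426 .nil (.cons 1426 .nil .nil)) .nil)) (.cons 1365 (.cons 1427 (.cons 1426 .nil (.cons 1426 .nil .nil)) (.cons 1427 (.cons 1426 .nil (.cons 1426 .nil .nil)) .nil)) .nil)) .nil)) (.cons 1235 (.cons 1362 (.cons 1365 (.cons 1427 (.cons 1426 .nil (.cons 1426 .nil .nil)) (.cons 1427 (.cons 1426 .nil (.cons 1426 .nil .nil)) .nil)) (.cons 1365 (.cons 1427 (.cons 1426 .nil (.cons 1426 .nil .nil)) (.cons 1427 (.cons 1426 .nil (.cons 1426 .nil .nil)) .nil)) .nil)) (.cons 1362 (.cons 1365 (.cons 1427 (.cons 1426 .nil (.cons 1426 .nil .nil)) (.cons 1427 (.cons 1426 .nil (.cons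 1426 .nil .nil)) .nil)) (.cons 1365 (.cons 1427 (.cons 1426 .nil (.cons 1426 .nil .nil)) (.cons 1427 (.cons 1426 .nil (.cons 1426 .nil .nil)) .nil)) .nil)) .nil)) .nil)) (.cons 1364 (.cons 1235 (.cons 1362 (.cons 1365 (.cons 1427 (.cons 1426 .nil (.cons 1426 .nil .nil)) (.cons 1427 (.cons 1426 .nil (.cons 1426 .nil .nil)) .nil)) (.cons 1365 (.cons 1427 (.cons 1426 .nil (.cons 1426 .nil .nil)) (.cons 1427 (.cons 1426 .nil (.cons 1426 .nil .nil)) .nil)) .nil)) (.cons 1362 (.cons 1365 (.cons 1427 (.cons 1426 .nil (.cons 1426 .nil .nil)) (.cons 1427 (.cons 1426 .nil (.cons 1426 .nil .nil)) .nil)) (.cons 1365 (.cons 1427 (.cons 1426 .nil (.cons 1426 .nil .nil)) (.cons 1427 (.cons 1426 .nil (.cons 1426 .nil .nil)) .nil)) .nil)) .nil)) (.cons 1235 (.cons 1362 (.cons 1365 (.cons 1427 (.cons 1426 .nil (.cons 1426 .nil .nil)) (.cons 1427 (.cons 1426 .nil (.cons 1426 .nil .nil)) .nil)) (.cons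 1365 (.cons 1427 (.cons 1426 .nil (.cons 1426 .nil .nil)) (.cons 1427 (.cons 1426 .nil (.cons 1426 .nil .nil)) .nil)) .nil)) (.cons 1362 (.cons 1365 (.cons 1427 (.cons 1426 .nil (.cons 1426 .nil .nil)) (.cons 1427 (.cons 1426 .nil (.cons 1426 .nil .nil)) .nil)) (.cons 1365 (.cons 1427 (.cons 1426 .nil (.cons 1426 .nil .nil)) (.cons 1427 (.cons 1426 .nil (.cons 1426 .nil .nil)) .nil)) .nil)) .nil)) .nil)) .nil)) .nil)))) (.Y 8 48 (.Y 9 49 (.D 25 8 49 24 4 (.C 4)) (.Y 32 52 (.D 5 32 48 1 1 (.C 1)) (.Y 33 53 (.D 5 33 48 0 0 (.C 0)) (.R (.cons 1237 (.cons 1299 (.cons 1173 (.cons 1235 (.cons 1172 .nil .nil) .nil) .nil) .nil) .nil))))) (.Y 9 49 (.Y 32 52 (.D 5 32 49 0 0 (.C 0)) (.Y 33 53 (.D 5 33 49 1 1 (.C 1)) (.R (.cons 1237 (.cons 1299 (.cons 1173 (.cons 1235 (.cons 1172 .nil .nil) .nil) .nil) .nil) .nil)))) (.R (.cons 1364 (.cons 1427 (.cons 1491 (.cons 1554 (.cons 1618 (.cons 1681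 (.cons 1745 (.cons 1808 (.cons 1872 (.cons 1299 (.cons 1362 (.cons 1426 .nil .nil) (.cons 1235 (.cons 1234 (.cons 1170 (.cons 1169 (.cons 1105 (.cons 1104 (.cons 1040 (.cons 1039 (.cons 1362 (.cons 1426 .nil (.cons 1426 .nil .nil)) .nil) .nil) .nil) .nil) .nil) .nil) .nil) .nil) .nil)) .nil) .nil) .nil) .nil) .nil) .nil) .nil) .nil) .nil) .nil)))))) (.Y 4 24 (.Y 8 48 (.Y 9 49 (.D 24 8 49 25 5 (.C 5)) (.Y 32 52 (.D 4 32 48 0 0 (.C 0)) (.Y 33 53 (.D 4 33 48 1 1 (.C 1)) (.R (.cons 1237 (.cons 1238 (.cons 1302 (.cons 1365 (.cons 1364 (.cons 1299 (.cons 1235 (.cons 1234 (.cons 1297 (.cons 1361 (.cons 1362 (.cons 1173 (.cons 1172 (.cons 1110 (.cons 1108 (.cons 1046 (.cons 1045 .nil .nil) .nil) .nil) .nil) (.cons 1110 (.cons 1111 (.cons 1175 .nil .nil) .nil) .nil)) .nil) .nil) .nil) .nil) .nil) (.cons 1235 (.cons 1172 (.cons 1173 .nil .nil) .nil) .nil)) .nil) .nil) .nil) .nil) .nil) .nil)))))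 (.Y 9 49 (.Y 32 52 (.D 4 32 49 1 1 (.C 1)) (.Y 33 53 (.D 4 33 49 0 0 (.C 0)) (.R (.cons 1237 (.cons 1238 (.cons 1302 (.cons 1365 (.cons 1364 (.cons 1299 (.cons 1235 (.cons 1234 (.cons 1297 (.cons 1361 (.cons 1362 (.cons 1173 (.cons 1172 .nil (.cons 1172 .nil .nil)) .nil) .nil) .nil) .nil) .nil) (.cons 1362 (.cons 1426 (.cons 1427 .nil .nil) .nil) .nil)) .nil) .nil) .nil) .nil) .nil) .nil)))) (.R (.cons 1364 (.cons 1365 (.cons 1302 (.cons 1238 (.cons 1237 (.cons 1299 (.cons 1362 (.cons 1361 (.cons 1297 (.cons 1234 (.cons 1235 (.cons 1173 (.cons 1172 .nil (.cons 1172 .nil (.cons 1172 (.cons 1110 (.cons 1108 (.cons 1111 (.cons 1175 .nil .nil) .nil) .nil) .nil) .nil))) .nil) .nil) .nil) .nil) .nil) (.cons 1362 (.cons 1426 (.cons 1427 .nil .nil) .nil) (.cons 1235 (.cons 1172 (.cons 1173 .nil .nil) .nil) .nil))) .nil) .nil) .nil) .nil) .nil) .nil)))) (.R (.cons 1237 (.cons 1364 (.cons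 1173 (.cons 1238 (.cons 1365 (.cons 1302 .nil (.cons 1302 .nil .nil)) (.cons 1365 (.cons 1302 .nil (.cons 1302 .nil .nil)) .nil)) (.cons 1238 (.cons 1365 (.cons 1302 .nil (.cons 1302 .nil .nil)) (.cons 1365 (.cons 1302 .nil (.cons 1302 .nil .nil)) .nil)) .nil)) (.cons 1173 (.cons 1238 (.cons 1365 (.cons 1302 .nil (.cons 1302 .nil .nil)) (.cons 1365 (.cons 1302 .nil (.cons 1302 .nil .nil)) .nil)) (.cons 1238 (.cons 1365 (.cons 1302 .nil (.cons 1302 .nil .nil)) (.cons 1365 (.cons 1302 .nil (.cons 1302 .nil .nil)) .nil)) .nil)) .nil)) (.cons 1364 (.cons 1173 (.cons 1238 (.cons 1365 (.cons 1302 .nil (.cons 1302 .nil .nil)) (.cons 1365 (.cons 1302 .nil (.cons 1302 .nil .nil)) .nil)) (.cons 1238 (.cons 1365 (.cons 1302 .nil (.cons 1302 .nil .nil)) (.cons 1365 (.cons 1302 .nil (.cons 1302 .nil .nil)) .nil)) .nil)) (.cons 1173 (.cons 1238 (.cons 1365 (.cons 1302 .nil (.cons 1302 .nil .nil))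 (.cons 1365 (.cons 1302 .nil (.cons 1302 .nil .nil)) .nil)) (.cons 1238 (.cons 1365 (.cons 1302 .nil (.cons 1302 .nil .nil)) (.cons 1365 (.cons 1302 .nil (.cons 1302 .nil .nil)) .nil)) .nil)) .nil)) .nil)) .nil)))))))))

theorem chkT_ok : chkT dl6 pats6 TMT trT 0 0 = true := by
  decide +kernel

theorem goodT (R : ZMod 6 → ZMod 6 → Bool → Prop) {m : ℕ} (hm : m ∈ TMT)
    (hR : ∀ b, m.testBit b = true → Rb R b) : GoodT R := by
  unfold TMT at hm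
  simp only [List.mem_cons, List.not_mem_nil, or_false] at hm
  rcases hm with rfl | rfl | rfl | rfl | rfl | rfl | rfl | rfl | rfl | rfl | rfl | rfl | rfl | rfl
  · exact tmT_0 R hR
  · exact tmT_1 R hR
  · exact tmT_2 R hR
  · exact tmT_3 R hR
  · exact tmT_4 R hR
  · exact tmT_5 R hR
  · exact tmT_6 R hR
  · exact tmT_7 R hR
  · exact tmT_8 R hR
  · exact tmT_9 R hR
  · exact tmT_10 R hR
  · exact tmT_11 R hR
  · exact tmT_12 R hR
  · exact tmT_13 R hR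

theorem dl6_okT : ∀ e ∈ dl6, e.1 < 6 ∧ ∀ c, cellOK c = true →
    decC (c + e.2 - 4096) = decC c + hexDir (e.1 : ZMod 6) := by
  intro e he
  unfold dl6 at he
  simp only [List.mem_cons, List.not_mem_nil, or_false] at he
  rcases he with rfl | rfl | rfl | rfl | rfl | rfl
  · refine ⟨by norm_num, fun c hc => ?_⟩
    unfold cellOK at hc
    simp only [Bool.and_eq_true, Nat.ble_eq] at hc
    have hd : hexDir (((0 : ℕ)) : ZMod 6) = (1, 0) := by decide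
    show decC (c + 4160 - 4096) = decC c + hexDir (((0 : ℕ)) : ZMod 6)
    rw [hd]
    simp only [decC, Prod.mk_add_mk, Prod.mk.injEq]
    omega
  · refine ⟨by norm_num, fun c hc => ?_⟩
    unfold cellOK at hc
    simp only [Bool.and_eq_true, Nat.ble_eq] at hc
    have hd : hexDir (((1 : ℕ)) : ZMod 6) = (0, 1) := by decide
    show decC (c + 4097 - 4096) = decC c + hexDir (((1 : ℕ)) : ZMod 6)
    rw [hd]
    simp only [decC, Prod.mk_add_mk, Prod.mk.injEq]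
    omega
  · refine ⟨by norm_num, fun c hc => ?_⟩
    unfold cellOK at hc
    simp only [Bool.and_eq_true, Nat.ble_eq] at hc
    have hd : hexDir (((2 : ℕ)) : ZMod 6) = (-1, 1) := by decide
    show decC (c + 4033 - 4096) = decC c + hexDir (((2 : ℕ)) : ZMod 6)
    rw [hd]
    simp only [decC, Prod.mk_add_mk, Prod.mk.injEq]
    omega
  · refine ⟨by norm_num, fun c hc => ?_⟩
    unfold cellOK at hc
    simp only [Bool.and_eq_true, Nat.ble_eq] at hc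
    have hd : hexDir (((3 : ℕ)) : ZMod 6) = (-1, 0) := by decide
    show decC (c + 4032 - 4096) = decC c + hexDir (((3 : ℕ)) : ZMod 6)
    rw [hd]
    simp only [decC, Prod.mk_add_mk, Prod.mk.injEq]
    omega
  · refine ⟨by norm_num, fun c hc => ?_⟩
    unfold cellOK at hc
    simp only [Bool.and_eq_true, Nat.ble_eq] at hc
    have hd : hexDir (((4 : ℕ)) : ZMod 6) = (0, -1) := by decide
    show decC (c + 4095 - 4096) = decC c + hexDir (((4 : ℕ)) : ZMod 6)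
    rw [hd]
    simp only [decC, Prod.mk_add_mk, Prod.mk.injEq]
    omega
  · refine ⟨by norm_num, fun c hc => ?_⟩
    unfold cellOK at hc
    simp only [Bool.and_eq_true, Nat.ble_eq] at hc
    have hd : hexDir (((5 : ℕ)) : ZMod 6) = (1, -1) := by decide
    show decC (c + 4159 - 4096) = decC c + hexDir (((5 : ℕ)) : ZMod 6)
    rw [hd]
    simp only [decC, Prod.mk_add_mk, Prod.mk.injEq]
    omega

theorem core_tri {R : ZMod 6 → ZMod 6 → Bool → Prop} (hR : Closed R) {g : Z2 → Lab 6}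
    (hg : ConT R g) : GoodT R := by
  obtain ⟨g', hg', h0⟩ := exists_rootT hg (p := (20, 20)) (by decide)
  obtain ⟨m, hm, hb⟩ := chkT_sound hR TMT hg' dl6_okT pats6_ok h0 trT 0 0 chkT_ok
    (fun b hb => by simp at hb) (fun b hb => by simp at hb)
  exact goodT R hm hb

end Pool.H3JG
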