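import Pool.Agent.Helper3.JG.Place
import Pool.Agent.Helper3.JG.RealHex
import Pool.Agent.Helper3.JD.DefsD

/-!
# Jigsaw tiles on the triangular tiling: definitions

The centres of the triangles of the tiling are the points of the fine hexagonal lattice of type `0`
(centres of the triangles which are translates of the one around `0`) and of type `1` (the other
triangles); the points of type `2` are the vertices of the triangles. The triangle around `0` has the
neighbours in the even directions `0, 2, 4`. A tile at a place of type `0` has a label with an even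
rotation amount, a tile at a place of type `1` has a label with an odd rotation amount.
-/

namespace Pool.H3JG

open Set

/-- The type of a point of the fine lattice. -/
def chi (z : Z2) : ZMod 3 := ((z.1 - z.2 : ℤ) : ZMod 3)

/-- Even rotation amounts. -/
def ev (k : ZMod 6) : Bool := k.val % 2 == 0

/-- The label `a` is allowed at the place `z`. -/
def OkT (z : Z2) (a : Lab 6) : Prop :=
  (chi z = 0 ∧ ev a.1 = true) ∨ (chi z = 1 ∧ ev a.1 = false)

/-- The open cell of direction `0`. -/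
def triU0 : Set V := {p | 0 < p.1 ∧ p.1 < 1 ∧ 0 < p.1 + p.2 ∧ p.1 + p.2 < 1}

/-- The closed cell of direction `0`. -/
def triD0 : Set V := {p | 0 ≤ p.1 ∧ p.1 ≤ 1 ∧ 0 ≤ p.1 + p.2 ∧ p.1 + p.2 ≤ 1}

/-- The star of the triangle: the union of its three closed cells. -/
def triB : Set V := {p | ∃ i : ZMod 6, ev i = true ∧ (hexMat (i, false)).ap p ∈ triD0}

/-- The triangle around `0`. -/
def triQ : Set V := {p | 2 * p.1 + p.2 ≤ 1 ∧ p.2 - p.1 ≤ 1 ∧ -p.1 - 2 * p.2 ≤ 1}

theorem triU0_open : IsOpen triU0 := by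
  have h1 : IsOpen {p : V | 0 < p.1} := isOpen_lt (by fun_prop) (by fun_prop)
  have h2 : IsOpen {p : V | p.1 < 1} := isOpen_lt (by fun_prop) (by fun_prop)
  have h3 : IsOpen {p : V | 0 < p.1 + p.2} := isOpen_lt (by fun_prop) (by fun_prop)
  have h4 : IsOpen {p : V | p.1 + p.2 < 1} := isOpen_lt (by fun_prop) (by fun_prop)
  exact h1.inter (h2.inter (h3.inter h4))

theorem triU0_flip : ∀ p ∈ triU0, (hexMat (0, true)).ap p ∈ triU0 := by
  rintro p ⟨h1, h2, h3, h4⟩
  rw [GridHex_flip]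
  refine ⟨?_, ?_, ?_, ?_⟩ <;> simp only <;> linarith

theorem triU0_half : ∀ p ∈ triU0, (hexMat (3, false)).ap (p - toV (hexDir 0)) ∈ triU0 := by
  rintro p ⟨h1, h2, h3, h4⟩
  rw [GridHex_m3, show hexDir 0 = (1, 0) from rfl]
  simp only [toV, Prod.fst_sub, Prod.snd_sub, Int.cast_one, Int.cast_zero, sub_zero]
  refine ⟨?_, ?_, ?_, ?_⟩ <;> simp only <;> linarith

theorem triD0_closure : triD0 ⊆ closure triU0 := by
  rintro ⟨x, y⟩ ⟨h1, h2, h3, h4⟩
  simp only at h1 h2 h3 h4
  have hc : Continuous (fun t : ℝ => (((1 - t) * x + t * (1 / 2), (1 - t) * y) : V)) := by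
    fun_prop
  have h0 := hc.tendsto 0
  have e0 : (((1 - 0) * x + 0 * (1 / 2), (1 - 0) * y) : V) = (x, y) :=
    Prod.ext (by simp) (by simp)
  rw [e0] at h0
  refine mem_closure_of_tendsto (h0.mono_left (nhdsWithin_le_nhds (s := Ioi (0 : ℝ)))) ?_
  filter_upwards [Ioo_mem_nhdsGT (zero_lt_one (α := ℝ))] with t ht
  obtain ⟨t0, t1⟩ := ht
  have t1' : 0 ≤ 1 - t := by linarith
  have a1 := mul_nonneg t1' h1
  have a2 := mul_nonneg t1' (sub_nonneg.2 h2)
  have a3 := mul_nonneg t1' h3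
  have a4 := mul_nonneg t1' (sub_nonneg.2 h4)
  refine ⟨?_, ?_, ?_, ?_⟩ <;> simp only <;> nlinarith

theorem tri_cover0 : ∀ p : V, ∃ z : Z2, ∃ i : ZMod 6, ∃ q ∈ closure triU0,
    p = toV z + (hexMat (i, false)).ap q := by
  rintro ⟨x, y⟩
  refine ⟨(⌊x⌋, ⌊x + y⌋ - ⌊x⌋), 0, (x - ⌊x⌋, y - (⌊x + y⌋ - ⌊x⌋)), triD0_closure ?_, ?_⟩
  · have a1 := Int.floor_le x
    have a2 := Int.lt_floor_add_one x
    have b1 := Int.floor_le (x + y)
    have b2 := Int.lt_floor_add_one (x + y)
    refine ⟨?_, ?_, ?_, ?_⟩ <;> simp only <;> linarith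
  · rw [GridHex_m0]
    unfold toV
    simp

/-- The fine lattice with the rhombic cells: only its matching relation is used, so the star is
empty. -/
def gridTri : Grid 6 where
  h := 3
  mat := hexMat
  dir := hexDir
  U0 := triU0
  B := ∅
  h_add := gridHex.h_add
  mat_one := gridHex.mat_one
  mat_mul := gridHex.mat_mul
  mat_dir := gridHex.mat_dir
  dir_h := gridHex.dir_h
  dir_ne := gridHex.dir_ne
  U0_open := triU0_open
  U0_flip := triU0_flip
  U0_half := triU0_half
  B_inv := fun _ _ h => h.elim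
  B_sep := fun _ _ _ h => h.elim
  cover := tri_cover0

/-- Allowed contacts of a labelling of the places of types `0` and `1`. -/
def ConT (R : ZMod 6 → ZMod 6 → Bool → Prop) (g : Z2 → Lab 6) : Prop :=
  (∀ z, chi z ≠ 2 → OkT z (g z)) ∧
  ∀ z d, chi z ≠ 2 → chi (z + hexDir d) ≠ 2 → Con 3 R d (g z) (g (z + hexDir d))

/-- There is a labelling with allowed contacts whose symmetries act transitively on the places. -/
def GoodT (R : ZMod 6 → ZMod 6 → Bool → Prop) : Prop :=
  ∃ g : Z2 → Lab 6, ConT R g ∧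
    ∀ w, chi w ≠ 2 → ∃ a, OkT w a ∧ ∀ v, chi v ≠ 2 → g (mvR hexMat w a v) = lmul a (g v)

/-- The copies `pl z (g z) '' T`, `z` of type `0` or `1`, tile the plane. -/
def TilesT (T : Set V) (g : Z2 → Lab 6) : Prop :=
  (∀ p : V, ∃ z, chi z ≠ 2 ∧ p ∈ gridTri.tile T z (g z)) ∧
  ∀ z w, chi z ≠ 2 → chi w ≠ 2 → z ≠ w →
    Disjoint (interior (gridTri.tile T z (g z))) (interior (gridTri.tile T w (g w)))

/-- The centres of the triangles of the triangular tiling, in Cartesian coordinates. -/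
def TriangleCentres : Set E :=
  {p | ∃ a b : ℤ, ¬ (a - b) % 3 = 2 ∧ p = !₂[(a : ℝ) + (b : ℝ) / 2, Real.sqrt 3 / 2 * (b : ℝ)]}

theorem chi_ne_two_iff (z : Z2) : chi z ≠ 2 ↔ ¬ (z.1 - z.2) % 3 = 2 := by
  unfold chi
  rw [ne_eq, not_iff_not]
  have h : (2 : ZMod 3) = ((2 : ℤ) : ZMod 3) := by norm_num
  rw [h, ZMod.intCast_eq_intCast_iff]
  unfold Int.ModEq
  norm_num

theorem triangleCentres_eq :
    TriangleCentres = (fun z : Z2 => hexF (toV z)) '' {z | chi z ≠ 2} := by
  ext p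
  constructor
  · rintro ⟨a, b, h, rfl⟩
    exact ⟨(a, b), (chi_ne_two_iff (a, b)).2 h, rfl⟩
  · rintro ⟨z, hz, rfl⟩
    exact ⟨z.1, z.2, (chi_ne_two_iff z).1 hz, rfl⟩

end Pool.H3JG
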