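import Pool.Agent.Helper3.JT.OkT

/-!
# Jigsaw tiles on the triangular tiling: elementary facts about the triangle

`tri_ball`: closed convex bounded set with nonempty interior,
`exists_homeomorph_image_interior_closure_frontier_eq_unitBall` (Mathlib.Analysis.Convex.GaugeRescale);
compare `JD/DiskHex.lean`.
-/

namespace Pool.H3JG

open Set

theorem triQ_B : triQ ⊆ triB := by
  rintro ⟨x, y⟩ ⟨h1, h2, h3⟩
  simp only at h1 h2 h3
  rcases le_total 0 y with hy | hy
  · rcases le_total 0 x with hx | hx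
    · refine ⟨0, by decide, ?_⟩
      rw [GridHex_m0]
      refine ⟨?_, ?_, ?_, ?_⟩ <;> simp only <;> linarith
    · refine ⟨4, by decide, ?_⟩
      rw [GridHex_m4]
      refine ⟨?_, ?_, ?_, ?_⟩ <;> simp only <;> linarith
  · rcases le_total 0 (x + y) with hx | hx
    · refine ⟨0, by decide, ?_⟩
      rw [GridHex_m0]
      refine ⟨?_, ?_, ?_, ?_⟩ <;> simp only <;> linarith
    · refine ⟨2, by decide, ?_⟩
      rw [GridHex_m2]
      refine ⟨?_, ?_, ?_, ?_⟩ <;> simp only <;> linarith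

theorem triU_B : ∀ e, ev e = true → gridTri.U e ⊆ triB := by
  rintro e he _ ⟨p, hp, rfl⟩
  have hev : ∀ e : ZMod 6, ev e = true → ev (linv ((e, false) : Lab 6)).1 = true := by decide
  refine ⟨(linv ((e, false) : Lab 6)).1, hev e he, ?_⟩
  have h1 : ((linv ((e, false) : Lab 6)).1, false) = linv ((e, false) : Lab 6) := rfl
  have h2 := gridHex.ap_linv_ap ((e, false) : Lab 6) p
  rw [h1]
  have h3 : (hexMat (linv ((e, false) : Lab 6))).ap ((hexMat ((e, false) : Lab 6)).ap p) = p := h2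
  have h4 : (hexMat (linv ((e, false) : Lab 6))).ap ((gridTri.mat ((e, false) : Lab 6)).ap p) = p :=
    h3
  rw [h4]
  obtain ⟨a1, a2, a3, a4⟩ := hp
  exact ⟨a1.le, a2.le, a3.le, a4.le⟩

private theorem DiskT_closed : IsClosed triQ := by
  have h1 : IsClosed {p : V | 2 * p.1 + p.2 ≤ 1} := isClosed_le (by fun_prop) (by fun_prop)
  have h2 : IsClosed {p : V | p.2 - p.1 ≤ 1} := isClosed_le (by fun_prop) (by fun_prop)
  have h3 : IsClosed {p : V | -p.1 - 2 * p.2 ≤ 1} := isClosed_le (by fun_prop) (by fun_prop)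
  exact h1.inter (h2.inter h3)

private theorem DiskT_compact : IsCompact triQ := by
  refine (isCompact_closedBall (0 : V) 1).of_isClosed_subset DiskT_closed ?_
  rintro ⟨x, y⟩ ⟨h1, h2, h3⟩
  simp only at h1 h2 h3
  rw [mem_closedBall_zero_iff, Prod.norm_def, max_le_iff, Real.norm_eq_abs, Real.norm_eq_abs,
    abs_le, abs_le]
  refine ⟨⟨?_, ?_⟩, ?_, ?_⟩ <;> simp only <;> linarith

private theorem DiskT_convex : Convex ℝ triQ := by
  have key : ∀ a b s t : ℝ, 0 ≤ a → 0 ≤ b → a + b = 1 → s ≤ 1 → t ≤ 1 → a * s + b * t ≤ 1 := by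
    intro a b s t ha hb hab hs ht
    have h2 := mul_le_mul_of_nonneg_left hs ha
    have h4 := mul_le_mul_of_nonneg_left ht hb
    linarith
  rintro ⟨x, y⟩ ⟨p1, p2, p3⟩ ⟨x', y'⟩ ⟨q1, q2, q3⟩ a b ha hb hab
  simp only at p1 p2 p3 q1 q2 q3
  have k1 := key a b _ _ ha hb hab p1 q1
  have k2 := key a b _ _ ha hb hab p2 q2
  have k3 := key a b _ _ ha hb hab p3 q3
  simp only [Prod.smul_mk, Prod.mk_add_mk, smul_eq_mul]
  refine ⟨?_, ?_, ?_⟩ <;> simp only <;> linarith [k1, k2, k3]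

private theorem DiskT_interior : (interior triQ).Nonempty := by
  refine ⟨(0, 0), mem_interior.2 ⟨{p : V | 2 * p.1 + p.2 < 1} ∩ ({p : V | p.2 - p.1 < 1} ∩
    {p : V | -p.1 - 2 * p.2 < 1}), ?_, ?_, ?_⟩⟩
  · rintro p ⟨h1, h2, h3⟩
    exact ⟨le_of_lt h1, le_of_lt h2, le_of_lt h3⟩
  · have h1 : IsOpen {p : V | 2 * p.1 + p.2 < 1} := isOpen_lt (by fun_prop) (by fun_prop)
    have h2 : IsOpen {p : V | p.2 - p.1 < 1} := isOpen_lt (by fun_prop) (by fun_prop)
    have h3 : IsOpen {p : V | -p.1 - 2 * p.2 < 1} := isOpen_lt (by fun_prop) (by fun_prop)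
    exact h1.inter (h2.inter h3)
  · refine ⟨?_, ?_, ?_⟩ <;> simp

theorem tri_ball : Nonempty (↥(hexF '' triQ) ≃ₜ ↥(Metric.closedBall (0 : E) 1)) := by
  have hF : (RealHex_F : V → E) = hexF := rfl
  have hcomp : IsCompact (hexF '' triQ) := by
    rw [← hF]
    exact DiskT_compact.image RealHex_F.continuous
  have hconv : Convex ℝ (hexF '' triQ) :=
    DiskT_convex.is_linear_image ⟨hexF_add, RealHex_smul⟩
  have hint : (interior (hexF '' triQ)).Nonempty := by
    rw [← hF, ← Homeomorph.image_interior]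
    exact DiskT_interior.image _
  obtain ⟨h, -, h2, -⟩ := exists_homeomorph_image_interior_closure_frontier_eq_unitBall hconv hint
    hcomp.isBounded
  rw [hcomp.isClosed.closure_eq] at h2
  exact ⟨(h.image (hexF '' triQ)).trans (Homeomorph.setCongr h2)⟩

end Pool.H3JG
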