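import Pool.Agent.Helper3.JT.OkT

/-!
# Jigsaw tiles on the triangular tiling: labels of the linear isometries

`tri_label`: `u := hexF (toV z)`. For even `k` the point `hexF (toV (hexDir k))` is a centre, so
`L (hexF (toV (hexDir k)))` is a difference of two centres, hence a point of the fine lattice
`range (fun z => hexF (toV z))`; the directions `0` and `2` generate the fine lattice, so `L` maps it
into itself and `hex_label` gives `a`. Then `L (hexF (toV (hexDir 0))) = hexF (toV (hexDir a.1))`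
(`act a 0 = a.1`) and `z + hexDir a.1` is a place, so `nb_iff` gives the parity of `a.1`.
-/

namespace Pool.H3JG

open Set

private theorem LabelT_inj {z w : Z2} (h : hexF (toV z) = hexF (toV w)) : z = w := by
  have h4 : toV z = toV w := RealHex_F.injective h
  unfold toV at h4
  rw [Prod.mk.injEq] at h4
  exact Prod.ext (by exact_mod_cast h4.1) (by exact_mod_cast h4.2)

private theorem LabelT_mem {z : Z2} : hexF (toV z) ∈ TriangleCentres ↔ chi z ≠ 2 := by
  rw [triangleCentres_eq]
  constructor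
  · rintro ⟨w, hw, h⟩
    rw [← LabelT_inj h]
    exact hw
  · intro h
    exact ⟨z, h, rfl⟩

private theorem LabelT_diff (L : E ≃ₗᵢ[ℝ] E) {z : Z2}
    (hL : ∀ w ∈ TriangleCentres, hexF (toV z) + L w ∈ TriangleCentres) {w : Z2} (hw : chi w ≠ 2) :
    ∃ u : Z2, L (hexF (toV w)) = hexF (toV u) := by
  have h1 := hL _ (LabelT_mem.2 hw)
  rw [triangleCentres_eq] at h1
  obtain ⟨v, -, hv⟩ := h1
  refine ⟨v + -z, ?_⟩
  simp only at hv
  rw [toV_add, toV_neg, ← sub_eq_add_neg, RealHex_sub, hv, add_sub_cancel_left]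

theorem tri_label (L : E ≃ₗᵢ[ℝ] E) {z : Z2} (hz : chi z ≠ 2)
    (hL : ∀ w ∈ TriangleCentres, hexF (toV z) + L w ∈ TriangleCentres) :
    ∃ a : Lab 6, OkT z a ∧ ∀ p : V, L (hexF p) = hexF ((hexMat a).ap p) := by
  obtain ⟨u0, hu0⟩ := LabelT_diff L hL (w := hexDir 0) (by decide)
  obtain ⟨u2, hu2⟩ := LabelT_diff L hL (w := hexDir 2) (by decide)
  have hfine : ∀ w ∈ range (fun z : Z2 => hexF (toV z)),
      L w ∈ range (fun z : Z2 => hexF (toV z)) := by
    rintro _ ⟨⟨m, n⟩, rfl⟩
    refine ⟨(m + n) • u0 + n • u2, ?_⟩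
    have e1 : toV ((m + n) • u0 + n • u2) = ((m + n : ℤ) : ℝ) • toV u0 + (n : ℝ) • toV u2 := by
      apply Prod.ext <;> simp [toV]
    have e2 : toV ((m, n) : Z2) = ((m + n : ℤ) : ℝ) • toV (hexDir 0) + (n : ℝ) • toV (hexDir 2) := by
      rw [show hexDir 0 = (1, 0) from rfl, show hexDir 2 = (-1, 1) from rfl]
      apply Prod.ext <;> simp [toV]
    simp only
    rw [e1, e2, hexF_add, hexF_add, RealHex_smul, RealHex_smul, RealHex_smul, RealHex_smul,
      map_add, map_smul, map_smul, hu0, hu2]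
  obtain ⟨a, ha⟩ := hex_label L hfine
  refine ⟨a, ?_, ha⟩
  have h1 := hL _ (LabelT_mem.2 (show chi (hexDir 0) ≠ 2 by decide))
  have e3 : (hexMat a).apZ (hexDir 0) = hexDir a.1 := by
    have h2 := gridHex.mat_dir a 0
    have h3 : act a 0 = a.1 := by
      unfold act sg
      split_ifs <;> simp
    rw [h3] at h2
    exact h2
  rw [ha, ← toV_apZ, e3, ← hexF_add, ← toV_add] at h1
  exact (nb_iff hz a.1).1 (LabelT_mem.1 h1)

end Pool.H3JG
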