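import Pool.Agent.Helper3.JT.OkT

/-!
# Jigsaw tiles on the triangular tiling: the star in terms of distances

`RealHex_near` (in `JG/RealHex.lean`): the fine lattice point `u = (a, b)` is nearer to `p = (x, y)`
than `0` if `a^2 + a b + b^2 < (2x + y) a + (x + 2y) b`. In the sector `x ≥ 0, x + y ≥ 0`: if `x > 1`
the centres `(2, -1)` and `(1, 0)` are nearer, if `x + y > 1` the centres `(1, 1)` and `(1, 0)` are
nearer; so `p` is in the closed rhombus `triD0` (`i = 0`). The other two sectors in the same way with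
`(-1, 2), (-1, 1)` and `(-2, 1)` (direction `2`), `(-1, -1), (0, -1)` and `(1, -2)` (direction `4`).
Compare `hex_star`; `triangleCentres_eq` in `DefsT.lean`.
-/

namespace Pool.H3JG

open Set

theorem tri_star (p : V) (h : ∀ u ∈ TriangleCentres, ∀ w ∈ TriangleCentres,
    ‖hexF p - u‖ < ‖hexF p‖ → ‖hexF p - w‖ < ‖hexF p‖ → u = w) : p ∈ triB := by
  have hh : ∀ u w : Z2, chi u ≠ 2 → chi w ≠ 2 → u ≠ w →
      (u.1 : ℝ) ^ 2 + u.1 * u.2 + (u.2 : ℝ) ^ 2 <
        2 * p.1 * u.1 + p.1 * u.2 + p.2 * u.1 + 2 * p.2 * u.2 →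
      (w.1 : ℝ) ^ 2 + w.1 * w.2 + (w.2 : ℝ) ^ 2 <
        2 * p.1 * w.1 + p.1 * w.2 + p.2 * w.1 + 2 * p.2 * w.2 → False := by
    intro u w hu hw huw h1 h2
    have k1 : hexF (toV u) ∈ TriangleCentres := by
      rw [triangleCentres_eq]
      exact ⟨u, hu, rfl⟩
    have k2 : hexF (toV w) ∈ TriangleCentres := by
      rw [triangleCentres_eq]
      exact ⟨w, hw, rfl⟩
    have h3 := h _ k1 _ k2 (RealHex_near p u h1) (RealHex_near p w h2)
    have h4 : toV u = toV w := RealHex_F.injective h3
    unfold toV at h4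
    rw [Prod.mk.injEq] at h4
    exact huw (Prod.ext (by exact_mod_cast h4.1) (by exact_mod_cast h4.2))
  obtain ⟨x, y⟩ := p
  have c1 : ¬ (1 < x ∧ 0 ≤ x + y) := fun k =>
    hh (2, -1) (1, 0) (by decide) (by decide) (by decide)
      (by push_cast; linarith [k.1]) (by push_cast; linarith [k.1, k.2])
  have c2 : ¬ (1 < x + y ∧ 0 ≤ x) := fun k =>
    hh (1, 1) (1, 0) (by decide) (by decide) (by decide)
      (by push_cast; linarith [k.1]) (by push_cast; linarith [k.1, k.2])
  have c3 : ¬ (1 < -y ∧ 0 ≤ -(x + y)) := fun k =>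
    hh (1, -2) (0, -1) (by decide) (by decide) (by decide)
      (by push_cast; linarith [k.1]) (by push_cast; linarith [k.1, k.2])
  have c4 : ¬ (1 < -(x + y) ∧ 0 ≤ -y) := fun k =>
    hh (-1, -1) (0, -1) (by decide) (by decide) (by decide)
      (by push_cast; linarith [k.1]) (by push_cast; linarith [k.1, k.2])
  have c5 : ¬ (1 < y ∧ 0 ≤ -x) := fun k =>
    hh (-1, 2) (-1, 1) (by decide) (by decide) (by decide)
      (by push_cast; linarith [k.1]) (by push_cast; linarith [k.1, k.2])
  have c6 : ¬ (1 < -x ∧ 0 ≤ y) := fun k =>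
    hh (-2, 1) (-1, 1) (by decide) (by decide) (by decide)
      (by push_cast; linarith [k.1]) (by push_cast; linarith [k.1, k.2])
  have s0 : 0 ≤ x → 0 ≤ x + y → (x, y) ∈ triB := by
    intro h1 h2
    refine ⟨0, by decide, ?_⟩
    rw [GridHex_m0]
    refine ⟨h1, ?_, h2, ?_⟩
    · by_contra hc
      simp only at hc
      exact c1 ⟨by linarith, h2⟩
    · by_contra hc
      simp only at hc
      exact c2 ⟨by linarith, h1⟩
  have s2 : 0 ≤ -y → 0 ≤ -(x + y) → (x, y) ∈ triB := by
    intro h1 h2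
    refine ⟨2, by decide, ?_⟩
    rw [GridHex_m2]
    refine ⟨by simp only; linarith, ?_, by simp only; linarith, ?_⟩
    · by_contra hc
      simp only at hc
      exact c4 ⟨by linarith, h1⟩
    · by_contra hc
      simp only at hc
      exact c3 ⟨by linarith, h2⟩
  have s4 : 0 ≤ y → 0 ≤ -x → (x, y) ∈ triB := by
    intro h1 h2
    refine ⟨4, by decide, ?_⟩
    rw [GridHex_m4]
    refine ⟨by simp only; linarith, ?_, by simp only; linarith, ?_⟩
    · by_contra hc
      simp only at hc
      exact c5 ⟨by linarith, h2⟩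
    · by_contra hc
      simp only at hc
      exact c6 ⟨by linarith, h1⟩
  rcases le_total 0 x with ha | ha
  · rcases le_total 0 (x + y) with hb | hb
    · exact s0 ha hb
    · exact s2 (by linarith) (by linarith)
  · rcases le_total 0 y with hb | hb
    · exact s4 hb (by linarith)
    · exact s2 (by linarith) (by linarith)

end Pool.H3JG
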