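import Pool.Agent.Helper3.JG.TileFit
import Pool.Agent.Helper3.JT.SepT

/-!
# Jigsaw tiles on the triangular tiling: in a tiling neighbouring tiles are complementary

Copy of `JG/TileFit.lean` (`Grid.fitAt_of_tiles`) with `tri_sep` in place of `Grid.sep`, for a place
`z` of type `0` (then `d` is even by `nb_iff`). For a place of type `1` (`d` odd) apply the first case
to `z + dir d` (type `0`) and `d + 3` and use `Grid.fitAt_swap`.
-/

namespace Pool.H3JG

open Set

private theorem TileFitT_fit {U A B : Set V} (hU : IsOpen U) (hA : closure (interior A) = A)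
    (hcov : U ⊆ A ∪ B) (hd : Disjoint (interior A) (interior B)) :
    U ∩ interior B = U \ A := by
  have hAc : IsClosed A := by
    rw [← hA]
    exact isClosed_closure
  apply Subset.antisymm
  · rintro p ⟨hpU, hpB⟩
    refine ⟨hpU, fun hpA => ?_⟩
    rw [← hA] at hpA
    obtain ⟨q, hq1, hq2⟩ := mem_closure_iff.1 hpA _ isOpen_interior hpB
    exact disjoint_left.1 hd hq2 hq1
  · intro p hp
    refine ⟨hp.1, ?_⟩
    refine interior_maximal (fun q hq => ?_) (hU.sdiff hAc) hp
    rcases hcov hq.1 with h | h
    · exact absurd h hq.2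
    · exact h

/-- the case of a place of type `0` -/
private theorem TileFitT_zero {T : Set V} (hT : closure (interior T) = T) (hB : T ⊆ triB)
    {g : Z2 → Lab 6} (hok : ∀ z, chi z ≠ 2 → OkT z (g z)) (ht : TilesT T g) (z : Z2) (d : ZMod 6)
    (hz : chi z = 0) (hd : ev d = true) :
    gridTri.FitAt T d (g z) (g (z + hexDir d)) := by
  have hz2 : chi z ≠ 2 := by
    rw [hz]
    decide
  have hzd2 : chi (z + hexDir d) ≠ 2 := (nb_iff hz2 d).2 (Or.inl ⟨hz, hd⟩)
  have hmv : ∀ (w : Z2) (b : Lab 6),
      gridTri.pl z (0, false) '' gridTri.tile T w b = gridTri.tile T (z + w) b := by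
    intro w b
    rw [gridTri.pl_tile, one_lmul]
    unfold mvR
    rw [gridTri.mat_one, Mat.apZ_one]
  have hcov : gridTri.U d ⊆ gridTri.tile T 0 (g z) ∪
      gridTri.tile T (hexDir d) (g (z + hexDir d)) := by
    intro p hp
    obtain ⟨z', hz'2, hz'⟩ := ht.1 (gridTri.pl z (0, false) p)
    have h1 : gridTri.tile T z' (g z') =
        gridTri.pl z (0, false) '' gridTri.tile T (z' - z) (g z') := by
      rw [hmv, add_sub_cancel]
    rw [h1] at hz'
    have h2 : p ∈ gridTri.tile T (z' - z) (g z') := by
      obtain ⟨p', hp', hpp⟩ := hz'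
      have := (gridTri.plH z (0, false)).injective hpp
      rw [← this]
      exact hp'
    have hc : chi (z' - z) = chi z' := by
      rw [sub_eq_add_neg, chi_add, chi_neg, hz, neg_zero, add_zero]
    have hok' : OkT (z' - z) (g z') := by
      have h3 := hok z' hz'2
      unfold OkT at h3 ⊢
      rwa [hc]
    rcases tri_sep hB hd hp hok' h2 with h3 | h3
    · left
      have h4 : z' = z := sub_eq_zero.1 h3
      rw [h3, h4] at h2
      exact h2
    · right
      have h4 : z' = z + hexDir d := by
        rw [← h3, add_sub_cancel]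
      rw [h3, h4] at h2
      exact h2
  have hdj : Disjoint (interior (gridTri.tile T 0 (g z)))
      (interior (gridTri.tile T (hexDir d) (g (z + hexDir d)))) := by
    have hne : z ≠ z + hexDir d := by
      intro h
      have h0 : hexDir d = 0 := by simpa using h
      exact gridTri.dir_ne d h0
    have h1 := ht.2 z (z + hexDir d) hz2 hzd2 hne
    have h2 : gridTri.tile T z (g z) = gridTri.plH z (0, false) '' gridTri.tile T 0 (g z) := by
      rw [gridTri.plH_coe, hmv, add_zero]
    have h3 : gridTri.tile T (z + hexDir d) (g (z + hexDir d)) =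
        gridTri.plH z (0, false) '' gridTri.tile T (hexDir d) (g (z + hexDir d)) := by
      rw [gridTri.plH_coe, hmv]
    rw [h2, h3, ← Homeomorph.image_interior, ← Homeomorph.image_interior] at h1
    exact (disjoint_image_iff (gridTri.plH z (0, false)).injective).1 h1
  have hU := gridTri.isOpen_U d
  have hA := gridTri.tile_regular hT 0 (g z)
  have hB' := gridTri.tile_regular hT (hexDir d) (g (z + hexDir d))
  refine ⟨TileFitT_fit hU hA hcov hdj, TileFitT_fit hU hB' ?_ hdj.symm⟩
  rw [union_comm]
  exact hcov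

theorem fitAt_of_tilesT {T : Set V} (hT : closure (interior T) = T) (hB : T ⊆ triB)
    {g : Z2 → Lab 6} (hok : ∀ z, chi z ≠ 2 → OkT z (g z)) (ht : TilesT T g) (z : Z2) (d : ZMod 6)
    (hz : chi z ≠ 2) (hzd : chi (z + hexDir d) ≠ 2) :
    gridTri.FitAt T d (g z) (g (z + hexDir d)) := by
  rcases (nb_iff hz d).1 hzd with ⟨h1, h2⟩ | ⟨h1, h2⟩
  · exact TileFitT_zero hT hB hok ht z d h1 h2
  · have h3 : chi (z + hexDir d) = 0 := by
      rw [chi_add, chi_dir, h1, h2]
      decide
    have h4 : ev (d + 3) = true := by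
      rw [ev_add3, h2]
      rfl
    have h5 := TileFitT_zero hT hB hok ht (z + hexDir d) (d + 3) h3 h4
    have h6 : z + hexDir d + hexDir (d + 3) = z := by
      have h7 : hexDir (d + 3) = -(hexDir d) := gridTri.dir_h d
      rw [h7, add_neg_cancel_right]
    rw [h6] at h5
    exact (gridTri.fitAt_swap T d (g z) (g (z + hexDir d))).1 h5

end Pool.H3JG
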