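import Pool.Agent.Helper3.JD.FinalD
import Pool.Agent.Helper3.JT.CoreT
import Pool.Agent.Helper3.JT.TileFitT
import Pool.Agent.Helper3.JT.AssembleT
import Pool.Agent.Helper3.JT.CellT1
import Pool.Agent.Helper3.JT.DiskT
import Pool.Agent.Helper3.JT.LabelT
import Pool.Agent.Helper3.JT.StarT

/-!
# Jigsaw tiles on the triangular tiling: the final statement
-/

namespace Pool.H3JG

open Set

theorem triangleCentres_subset : TriangleCentres ⊆ HexagonalLattice := by
  rintro p ⟨a, b, _, rfl⟩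
  exact ⟨a, b, rfl⟩

/-- The general statement for the triangular tiling. -/
theorem finalT_gen {T : Set E} (hT0 : closure (interior T) = T)
    (hstar : ∀ p : V, hexF p ∈ T → p ∈ triB)
    (g : E → E ≃ₗᵢ[ℝ] E)
    (hg : ∀ u ∈ TriangleCentres, ∀ w ∈ TriangleCentres, u + g u w ∈ TriangleCentres)
    (hcov : (⋃ u ∈ TriangleCentres, (fun x => u + g u x) '' T) = univ)
    (hdis : ∀ u ∈ TriangleCentres, ∀ w ∈ TriangleCentres, u ≠ w →
      Disjoint (interior ((fun x => u + g u x) '' T)) (interior ((fun x => w + g w x) '' T))) :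
    ∃ a : Fin 1 → (E ≃ᵢ E), IsRepeating T a := by
  obtain ⟨re, hre⟩ := exists_realHex
  have hadd : ∀ p q, re.F (p + q) = re.F p + re.F q := fun p q => by
    simp only [hre]
    exact hexF_add p q
  have hmem : ∀ z : Z2, chi z ≠ 2 → re.F (toV z) ∈ TriangleCentres := fun z hz => by
    rw [triangleCentres_eq, hre]
    exact ⟨z, hz, rfl⟩
  have hinj : ∀ z w : Z2, re.F (toV z) = re.F (toV w) → z = w := by
    intro z w h
    have h1 := re.F.injective h
    unfold toV at h1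
    rw [Prod.mk.injEq] at h1
    exact Prod.ext (by exact_mod_cast h1.1) (by exact_mod_cast h1.2)
  set T' : Set V := re.F ⁻¹' T with hT'
  have hFT : re.F '' T' = T := image_preimage_eq T re.F.surjective
  have hreg : closure (interior T') = T' := by
    rw [hT', ← re.F.preimage_interior, ← re.F.preimage_closure, hT0]
  have hcl : IsClosed T' := by
    rw [← hreg]
    exact isClosed_closure
  have hB : T' ⊆ triB := by
    intro p hp
    have hp' : re.F p ∈ T := hp
    rw [hre] at hp'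
    exact hstar p hp'
  have hex : ∀ z : Z2, ∃ b : Lab 6, chi z ≠ 2 → OkT z b ∧
      ∀ p, g (re.F (toV z)) (re.F p) = re.F ((hexMat b).ap p) := by
    intro z
    by_cases hz : chi z ≠ 2
    · obtain ⟨b, hb, hb2⟩ := tri_label (g (re.F (toV z))) hz (fun w hw => by
        have := hg _ (hmem z hz) w hw
        rw [hre] at this ⊢
        exact this)
      exact ⟨b, fun _ => ⟨hb, fun p => by
        have h1 := hb2 p
        rw [← hre p, ← hre ((hexMat b).ap p)] at h1
        exact h1⟩⟩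
    · exact ⟨(0, false), fun h => absurd h hz⟩
  choose g' hg' using hex
  have hok : ∀ z, chi z ≠ 2 → OkT z (g' z) := fun z hz => (hg' z hz).1
  have himg : ∀ z : Z2, chi z ≠ 2 → (fun x => re.F (toV z) + g (re.F (toV z)) x) '' T =
      re.F '' gridTri.tile T' z (g' z) := by
    intro z hz
    rw [← hFT]
    unfold Grid.tile
    rw [image_image, image_image]
    refine image_congr fun p _ => ?_
    rw [(hg' z hz).2 p, ← hadd]
    rfl
  have htiles : TilesT T' g' := by
    constructor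
    · intro p
      have h1 : re.F p ∈ (⋃ u ∈ TriangleCentres, (fun x => u + g u x) '' T) := by
        rw [hcov]
        exact mem_univ _
      rw [mem_iUnion₂] at h1
      obtain ⟨u, hu, h2⟩ := h1
      rw [triangleCentres_eq] at hu
      obtain ⟨z, hz, rfl⟩ := hu
      have hz' : chi z ≠ 2 := hz
      refine ⟨z, hz', ?_⟩
      have h3 : re.F p ∈ re.F '' gridTri.tile T' z (g' z) := by
        rw [← himg z hz', hre (toV z)]
        exact h2
      exact (re.F.injective.mem_set_image).1 h3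
    · intro z w hz hw hzw
      have hne : re.F (toV z) ≠ re.F (toV w) := fun h => hzw (hinj z w h)
      have h2 := hdis _ (hmem z hz) _ (hmem w hw) hne
      rw [himg z hz, himg w hw, ← re.F.image_interior, ← re.F.image_interior,
        disjoint_image_iff re.F.injective] at h2
      exact h2
  have hcon : ConT (gridTri.rel T') g' := ⟨hok, fun z d hz hzd =>
    (gridTri.fitAt_iff T' d _ _).1 (fitAt_of_tilesT hreg hB hok htiles z d hz hzd)⟩
  obtain ⟨a, ha⟩ := repeating_of_goodT re hcl hB (core_tri (gridTri.rel_closed T') hcon)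
  rw [hFT] at ha
  exact ⟨a, ha⟩

theorem star_of_jigsawT {T : Set E} (hj : IsJigsaw TriangleCentres T) :
    ∀ p : V, hexF p ∈ T → p ∈ triB := by
  obtain ⟨re, hre⟩ := exists_realHex
  obtain ⟨ψ, k1, k2, hTe⟩ := hj
  intro p hp'
  rw [← hre, hTe] at hp'
  obtain ⟨q, hq, hqp⟩ := hp'
  by_cases h : ∃ w ∈ TriangleCentres, w ≠ 0 ∧ q ∈ Cell TriangleCentres w
  · obtain ⟨w, hw, hw0, hqw⟩ := h
    have h3 := k2 w hw hw0 q hqw
    rw [hqp] at h3
    have h4 := tri_cell1 hw hw0 h3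
    simp only [mem_iUnion] at h4
    obtain ⟨e, he, r, hr, hrp⟩ := h4
    rw [← hre r] at hrp
    rw [re.F.injective hrp] at hr
    exact triU_B e he hr
  · push Not at h
    have h3 : ψ q = q := k1 q h
    rw [h3] at hqp
    rw [tri_vor] at hq
    obtain ⟨r, hr, hrq⟩ := hq
    rw [hqp, ← hre r] at hrq
    rw [re.F.injective hrq] at hr
    exact triQ_B hr

theorem finalT {T : Set E} (hj : IsJigsaw TriangleCentres T)
    (g : E → E ≃ₗᵢ[ℝ] E)
    (hg : ∀ u ∈ TriangleCentres, ∀ w ∈ TriangleCentres, u + g u w ∈ TriangleCentres)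
    (hcov : (⋃ u ∈ TriangleCentres, (fun x => u + g u x) '' T) = univ)
    (hdis : ∀ u ∈ TriangleCentres, ∀ w ∈ TriangleCentres, u ≠ w →
      Disjoint (interior ((fun x => u + g u x) '' T)) (interior ((fun x => w + g w x) '' T))) :
    Nonempty (↥T ≃ₜ ↥(Metric.closedBall (0 : E) 1)) ∧
      ∃ a : Fin 1 → (E ≃ᵢ E), IsRepeating T a ∧
        Nonempty (↥(⋃ i, a i '' T) ≃ₜ ↥(Metric.closedBall (0 : E) 1)) := by
  have hreg0 := (reg_of_jigsaw hj fun u hu h0 =>
    one_le_norm_hex (triangleCentres_subset hu) h0).1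
  obtain ⟨a, ha⟩ := finalT_gen hreg0 (star_of_jigsawT hj) g hg hcov hdis
  obtain ⟨ψ, k1, k2, hTe⟩ := hj
  obtain ⟨b1⟩ := tri_ball
  have bT : Nonempty (↥T ≃ₜ ↥(Metric.closedBall (0 : E) 1)) := by
    rw [hTe, tri_vor]
    exact ⟨(ψ.image _).symm.trans b1⟩
  refine ⟨bT, a, ha, ?_⟩
  obtain ⟨bT⟩ := bT
  have he : (⋃ i : Fin 1, a i '' T) = (a 0).toHomeomorph '' T := by
    ext x
    simp only [mem_iUnion]
    constructor
    · rintro ⟨i, hi⟩
      rw [Subsingleton.elim i 0] at hi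
      exact hi
    · intro hx
      exact ⟨0, hx⟩
  rw [he]
  exact ⟨((a 0).toHomeomorph.image T).symm.trans bT⟩

theorem sub_mem_square {u v : E} (hu : u ∈ SquareLattice) (hv : u + v ∈ SquareLattice) :
    v ∈ SquareLattice := by
  rw [squareLattice_eq] at *
  obtain ⟨z, rfl⟩ := hu
  obtain ⟨w, hw⟩ := hv
  refine ⟨w - z, ?_⟩
  have h1 : sqF (toV z) + sqF (toV (w - z)) = sqF (toV w) := by
    rw [← sqF_add, ← toV_add, add_sub_cancel]
  simp only at hw ⊢
  rw [hw] at h1
  exact add_left_cancel h1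

theorem sub_mem_hexagonal {u v : E} (hu : u ∈ HexagonalLattice) (hv : u + v ∈ HexagonalLattice) :
    v ∈ HexagonalLattice := by
  rw [hexagonalLattice_eq] at *
  obtain ⟨z, rfl⟩ := hu
  obtain ⟨w, hw⟩ := hv
  refine ⟨w - z, ?_⟩
  have h1 : hexF (toV z) + hexF (toV (w - z)) = hexF (toV w) := by
    rw [← hexF_add, ← toV_add, add_sub_cancel]
  simp only at hw ⊢
  rw [hw] at h1
  exact add_left_cancel h1

/-- The three regular tilings together, jigsaw deformations. -/
theorem finalR (P : Set E)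
    (hP : P = SquareLattice ∨ P = HexagonalLattice ∨ P = TriangleCentres)
    {T : Set E} (hT : IsJigsaw P T)
    (g : E → E ≃ₗᵢ[ℝ] E) (hg : ∀ u ∈ P, ∀ w ∈ P, u + g u w ∈ P)
    (hcov : (⋃ u ∈ P, (fun x => u + g u x) '' T) = univ)
    (hdis : ∀ u ∈ P, ∀ w ∈ P, u ≠ w →
      Disjoint (interior ((fun x => u + g u x) '' T)) (interior ((fun x => w + g w x) '' T))) :
    Nonempty (↥T ≃ₜ ↥(Metric.closedBall (0 : E) 1)) ∧
      ∃ m : ℕ, 1 ≤ m ∧ m ≤ 2 ∧ (P = TriangleCentres → m = 1) ∧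
        ∃ a : Fin m → (E ≃ᵢ E), IsRepeating T a ∧
          Nonempty (↥(⋃ i, a i '' T) ≃ₜ ↥(Metric.closedBall (0 : E) 1)) := by
  by_cases hPT : P = TriangleCentres
  · subst hPT
    obtain ⟨h1, a, ha, h2⟩ := finalT hT g hg hcov hdis
    exact ⟨h1, 1, le_refl _, by omega, fun _ => rfl, a, ha, h2⟩
  rcases hP with rfl | rfl | rfl
  · obtain ⟨h1, h2, h3⟩ := reg_of_jigsaw hT (norm_ge_of_lattice _ (Or.inl rfl))
    obtain ⟨m, hm1, hm2, a, ha, h⟩ := finalD _ (Or.inl rfl) h1 h2 h3 g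
      (fun u hu w hw => sub_mem_square hu (hg u hu w hw)) hcov hdis
    exact ⟨(h hT).1, m, hm1, hm2, fun k => absurd k hPT, a, ha, (h hT).2⟩
  · obtain ⟨h1, h2, h3⟩ := reg_of_jigsaw hT (norm_ge_of_lattice _ (Or.inr rfl))
    obtain ⟨m, hm1, hm2, a, ha, h⟩ := finalD _ (Or.inr rfl) h1 h2 h3 g
      (fun u hu w hw => sub_mem_hexagonal hu (hg u hu w hw)) hcov hdis
    exact ⟨(h hT).1, m, hm1, hm2, fun k => absurd k hPT, a, ha, (h hT).2⟩
  · exact absurd rfl hPT

/-- The three regular tilings together, general tiles. -/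
theorem finalG (P : Set E)
    (hP : P = SquareLattice ∨ P = HexagonalLattice ∨ P = TriangleCentres)
    {T : Set E} (hT : closure (interior T) = T) (hc : IsPreconnected (interior T))
    (hn : ∀ p ∈ T, ∀ u ∈ P, ∀ w ∈ P, ‖p - u‖ < ‖p‖ → ‖p - w‖ < ‖p‖ → u = w)
    (g : E → E ≃ₗᵢ[ℝ] E) (hg : ∀ u ∈ P, ∀ w ∈ P, u + g u w ∈ P)
    (hcov : (⋃ u ∈ P, (fun x => u + g u x) '' T) = univ)
    (hdis : ∀ u ∈ P, ∀ w ∈ P, u ≠ w →
      Disjoint (interior ((fun x => u + g u x) '' T)) (interior ((fun x => w + g w x) '' T))) :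
    ∃ m : ℕ, 1 ≤ m ∧ m ≤ 2 ∧ (P = TriangleCentres → m = 1) ∧
      ∃ a : Fin m → (E ≃ᵢ E), IsRepeating T a := by
  by_cases hPT : P = TriangleCentres
  · subst hPT
    obtain ⟨a, ha⟩ := finalT_gen hT (fun p hp => tri_star p (hn _ hp)) g hg hcov hdis
    exact ⟨1, le_refl _, by omega, fun _ => rfl, a, ha⟩
  rcases hP with rfl | rfl | rfl
  · obtain ⟨m, hm1, hm2, a, ha, h⟩ := finalD _ (Or.inl rfl) hT hc hn g
      (fun u hu w hw => sub_mem_square hu (hg u hu w hw)) hcov hdis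
    exact ⟨m, hm1, hm2, fun k => absurd k hPT, a, ha⟩
  · obtain ⟨m, hm1, hm2, a, ha, h⟩ := finalD _ (Or.inr rfl) hT hc hn g
      (fun u hu w hw => sub_mem_hexagonal hu (hg u hu w hw)) hcov hdis
    exact ⟨m, hm1, hm2, fun k => absurd k hPT, a, ha⟩
  · exact absurd rfl hPT

end Pool.H3JG
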