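import Pool.Agent.Helper3.JT.SepT

/-!
# Jigsaw tiles on the triangular tiling: complementary neighbours give a tiling

Copy of `JG/FitTile.lean` (`Grid.tiles_of_fitAt`) with `tri_sep` and `tri_cover` in place of
`Grid.sep` and the cover of the grid (only places `z` of type `0` and even directions `i` are needed;
then `z + dir i` has type `1`, see `nb_iff`).
-/

namespace Pool.H3JG

open Set

private theorem FitTileT_tr (T : Set V) (z w : Z2) (a : Lab 6) :
    gridTri.plH z (0, false) '' gridTri.tile T w a = gridTri.tile T (z + w) a := by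
  rw [gridTri.plH_coe, gridTri.pl_tile, one_lmul]
  congr 1
  simp [mvR, gridTri.mat_one, Mat.apZ_one]

private theorem FitTileT_trI (T : Set V) (z w : Z2) (a : Lab 6) :
    gridTri.plH z (0, false) '' interior (gridTri.tile T w a) =
      interior (gridTri.tile T (z + w) a) := by
  rw [(gridTri.plH z (0, false)).image_interior, FitTileT_tr]

private theorem FitTileT_cov (p : V) :
    ∃ s : Z2, chi s = 0 ∧ ∃ i : ZMod 6, ev i = true ∧ ∃ q ∈ closure (gridTri.U i),
      p = gridTri.plH s (0, false) q := by
  obtain ⟨s, hs, i, hi, q, hq, hp⟩ := tri_cover p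
  refine ⟨s, hs, i, hi, q, hq, ?_⟩
  rw [gridTri.plH_coe, gridTri.pl_one]
  exact hp

private theorem FitTileT_closed {T : Set V} (hT : IsClosed T) (w : Z2) (a : Lab 6) :
    IsClosed (gridTri.tile T w a) := by
  have h : gridTri.tile T w a = gridTri.plH w a '' T := rfl
  rw [h]
  exact (gridTri.plH w a).isClosedMap _ hT

private theorem FitTileT_dis {T : Set V} {i : ZMod 6} {a b : Lab 6}
    (hg : gridTri.FitAt T i a b) (q : V)
    (hq : q ∈ gridTri.U i) (h1 : q ∈ interior (gridTri.tile T 0 a))
    (h2 : q ∈ interior (gridTri.tile T (hexDir i) b)) : False := by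
  have h := hg.1
  have h3 : q ∈ gridTri.U i \ gridTri.tile T 0 a := h ▸ (⟨hq, h2⟩ : q ∈ gridTri.U i ∩ interior _)
  exact h3.2 (interior_subset h1)

private theorem FitTileT_ok {z s : Z2} {a : Lab 6} (hs : chi s = 0) (h : OkT z a) :
    OkT (z - s) a := by
  have h1 : chi (z - s) = chi z := by
    rw [sub_eq_add_neg, chi_add, chi_neg, hs, neg_zero, add_zero]
  unfold OkT at *
  rw [h1]
  exact h

theorem tilesT_of_fitAt {T : Set V} (hT : IsClosed T) (hB : T ⊆ triB) {g : Z2 → Lab 6}
    (hok : ∀ z, chi z ≠ 2 → OkT z (g z))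
    (hg : ∀ z d, chi z ≠ 2 → chi (z + hexDir d) ≠ 2 →
      gridTri.FitAt T d (g z) (g (z + hexDir d))) : TilesT T g := by
  have hfit : ∀ s i, chi s = 0 → ev i = true → chi s ≠ 2 ∧ chi (s + hexDir i) ≠ 2 ∧
      gridTri.FitAt T i (g s) (g (s + hexDir i)) := by
    intro s i hs hi
    have h1 : chi s ≠ 2 := by
      rw [hs]
      decide
    have h2 : chi (s + hexDir i) ≠ 2 := (nb_iff h1 i).2 (Or.inl ⟨hs, hi⟩)
    exact ⟨h1, h2, hg s i h1 h2⟩
  constructor
  · intro p
    obtain ⟨s, hs, i, hi, q, hq, rfl⟩ := FitTileT_cov p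
    obtain ⟨c1, c2, hF⟩ := hfit s i hs hi
    have hU : gridTri.U i ⊆ gridTri.tile T 0 (g s) ∪
        gridTri.tile T (hexDir i) (g (s + hexDir i)) := by
      intro x hx
      by_cases h : x ∈ gridTri.tile T 0 (g s)
      · exact Or.inl h
      · right
        have h1 : x ∈ gridTri.U i \ gridTri.tile T 0 (g s) := ⟨hx, h⟩
        have h2 : gridTri.U i ∩ interior (gridTri.tile T (hexDir i) (g (s + hexDir i))) =
            gridTri.U i \ gridTri.tile T 0 (g s) := hF.1
        rw [← h2] at h1
        exact interior_subset h1.2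
    have hc : closure (gridTri.U i) ⊆ gridTri.tile T 0 (g s) ∪
        gridTri.tile T (hexDir i) (g (s + hexDir i)) :=
      closure_minimal hU ((FitTileT_closed hT _ _).union (FitTileT_closed hT _ _))
    rcases hc hq with h | h
    · refine ⟨s, c1, ?_⟩
      have h1 := mem_image_of_mem (gridTri.plH s (0, false)) h
      rwa [FitTileT_tr, add_zero] at h1
    · refine ⟨s + hexDir i, c2, ?_⟩
      have h1 := mem_image_of_mem (gridTri.plH s (0, false)) h
      rwa [FitTileT_tr] at h1
  · intro z w hcz hcw hzw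
    rw [Set.disjoint_left]
    intro p hpz hpw
    obtain ⟨s, hs, i, hi, q, hq, rfl⟩ := FitTileT_cov p
    obtain ⟨c1, c2, hF⟩ := hfit s i hs hi
    have ez : z = s + (z - s) := by abel
    have ew : w = s + (w - s) := by abel
    have hz : q ∈ interior (gridTri.tile T (z - s) (g z)) := by
      rw [ez, ← FitTileT_trI] at hpz
      rw [← ez] at hpz
      obtain ⟨x, hx, hxe⟩ := hpz
      rwa [(gridTri.plH s (0, false)).injective hxe] at hx
    have hw : q ∈ interior (gridTri.tile T (w - s) (g w)) := by
      rw [ew, ← FitTileT_trI] at hpw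
      rw [← ew] at hpw
      obtain ⟨x, hx, hxe⟩ := hpw
      rwa [(gridTri.plH s (0, false)).injective hxe] at hx
    have hO : IsOpen (interior (gridTri.tile T (z - s) (g z)) ∩
        interior (gridTri.tile T (w - s) (g w))) :=
      isOpen_interior.inter isOpen_interior
    obtain ⟨x, ⟨hxz, hxw⟩, hxU⟩ := mem_closure_iff.1 hq _ hO ⟨hz, hw⟩
    have sz := tri_sep hB hi hxU (FitTileT_ok hs (hok z hcz)) (interior_subset hxz)
    have sw := tri_sep hB hi hxU (FitTileT_ok hs (hok w hcw)) (interior_subset hxw)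
    rcases sz with sz | sz <;> rcases sw with sw | sw
    · exact hzw (sub_left_injective (sz.trans sw.symm))
    · have e1 : z = s := sub_eq_zero.1 sz
      have e2 : w = s + hexDir i := by rw [← sw]; abel
      rw [sz] at hxz
      rw [sw] at hxw
      rw [e1] at hxz
      rw [e2] at hxw
      exact FitTileT_dis hF x hxU hxz hxw
    · have e1 : w = s := sub_eq_zero.1 sw
      have e2 : z = s + hexDir i := by rw [← sz]; abel
      rw [sz] at hxz
      rw [sw] at hxw
      rw [e2] at hxz
      rw [e1] at hxw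
      exact FitTileT_dis hF x hxU hxw hxz
    · exact hzw (sub_left_injective (sz.trans sw.symm))

end Pool.H3JG
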