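import Pool.Agent.Helper3.JG.Tmpl
import Pool.Agent.Helper3.JT.OkT

/-!
# Jigsaw tiles on the triangular tiling: periodic labellings given by tables
-/

namespace Pool.H3JG

section Table

variable (N : ℕ) (tab : ZMod N → ZMod N → Lab 6)

/-- The type of a position in a table. -/
def tyT (x y : ZMod N) : ZMod 3 := (x.val : ZMod 3) - (y.val : ZMod 3)

theorem tyT_val [NeZero N] (hN : 3 ∣ N) (k : ℤ) : (((k : ZMod N).val : ℕ) : ZMod 3) = (k : ZMod 3) := by
  have h1 : (((k : ZMod N).val : ℕ) : ℤ) = k % N := ZMod.val_intCast k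
  have h2 : (((k : ZMod N).val : ℕ) : ZMod 3) = (((((k : ZMod N).val : ℕ) : ℤ)) : ZMod 3) := by
    rw [Int.cast_natCast]
  rw [h2, h1, ZMod.intCast_eq_intCast_iff]
  exact (Int.mod_modEq k N).of_dvd (by exact_mod_cast hN)

theorem tyT_cast [NeZero N] (hN : 3 ∣ N) (z : Z2) :
    tyT N (z.1 : ZMod N) (z.2 : ZMod N) = chi z := by
  unfold tyT chi
  rw [tyT_val N hN, tyT_val N hN]
  push_cast
  rfl

/-- Parity of the labels of a table. -/
def OkTab : Prop := ∀ x y : ZMod N, (tyT N x y = 0 → ev (tab x y).1 = true) ∧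
  (tyT N x y = 1 → ev (tab x y).1 = false)

/-- All contacts of a table are in a mask. -/
def ValTab (mask : ℕ) : Prop := ∀ x y : ZMod N, ∀ d : ZMod 6, tyT N x y ≠ 2 →
  tyT N (x + ((hexDir d).1 : ZMod N)) (y + ((hexDir d).2 : ZMod N)) ≠ 2 →
    mask.testBit (cbit 3 d (tab x y)
      (tab (x + ((hexDir d).1 : ZMod N)) (y + ((hexDir d).2 : ZMod N)))) = true

/-- The symmetry which moves the place `0` to the place `(x, y)`. -/
def SymTab : Prop := ∀ x y : ZMod N, tyT N x y ≠ 2 → ∀ u v : ZMod N, tyT N u v ≠ 2 →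
  tab (x + ((hexMat (lmul (tab x y) (linv (tab 0 0)))).a : ZMod N) * u +
      ((hexMat (lmul (tab x y) (linv (tab 0 0)))).b : ZMod N) * v)
    (y + ((hexMat (lmul (tab x y) (linv (tab 0 0)))).c : ZMod N) * u +
      ((hexMat (lmul (tab x y) (linv (tab 0 0)))).d : ZMod N) * v) =
    lmul (lmul (tab x y) (linv (tab 0 0))) (tab u v)

instance [NeZero N] : Decidable (OkTab N tab) := by
  unfold OkTab
  infer_instance

instance [NeZero N] (mask : ℕ) : Decidable (ValTab N tab mask) := by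
  unfold ValTab
  infer_instance

instance [NeZero N] : Decidable (SymTab N tab) := by
  unfold SymTab
  infer_instance

theorem good_of_tabT [NeZero N] (R : ZMod 6 → ZMod 6 → Bool → Prop) {mask : ℕ} (hN : 3 ∣ N)
    (hc : OkTab N tab ∧ ValTab N tab mask ∧ SymTab N tab)
    (hR : ∀ b, mask.testBit b = true → Rb R b) : GoodT R := by
  obtain ⟨h1, h2, h3⟩ := hc
  have key : ∀ c : ZMod 3, c ≠ 2 → c = 0 ∨ c = 1 := by decide
  have hok : ∀ z, chi z ≠ 2 → OkT z (gT N tab z) := by
    intro z hz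
    have h4 := h1 (z.1 : ZMod N) (z.2 : ZMod N)
    rw [tyT_cast N hN] at h4
    rcases key _ hz with h | h
    · exact Or.inl ⟨h, h4.1 h⟩
    · exact Or.inr ⟨h, h4.2 h⟩
  refine ⟨gT N tab, ⟨hok, ?_⟩, ?_⟩
  · intro z d hz hzd
    rw [con_iff_cbit]
    apply hR
    have h4 := h2 (z.1 : ZMod N) (z.2 : ZMod N) d
    rw [tyT_cast N hN] at h4
    have e : tyT N ((z.1 : ZMod N) + ((hexDir d).1 : ZMod N)) ((z.2 : ZMod N) +
        ((hexDir d).2 : ZMod N)) = chi (z + hexDir d) := by
      rw [← tyT_cast N hN, Prod.fst_add, Prod.snd_add]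
      push_cast
      rfl
    rw [e] at h4
    have h5 := h4 hz hzd
    simp only [gT, Prod.fst_add, Prod.snd_add]
    push_cast
    exact h5
  · intro w hw
    have h00 : ev (gT N tab 0).1 = true := by
      rcases hok 0 (by rw [chi_zero]; decide) with h | h
      · exact h.2
      · rw [chi_zero] at h
        exact absurd h.1 (by decide)
    refine ⟨lmul (gT N tab w) (linv (gT N tab 0)), ?_, ?_⟩
    · have h4 := hok w hw
      unfold OkT at h4 ⊢
      rw [ev_lmul, ev_linv, h00]
      rcases h4 with h | h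
      · left
        exact ⟨h.1, by rw [h.2]; rfl⟩
      · right
        exact ⟨h.1, by rw [h.2]; rfl⟩
    · intro v hv
      have h4 := h3 (w.1 : ZMod N) (w.2 : ZMod N) (by rw [tyT_cast N hN]; exact hw)
        (v.1 : ZMod N) (v.2 : ZMod N) (by rw [tyT_cast N hN]; exact hv)
      have e0 : tab (w.1 : ZMod N) (w.2 : ZMod N) = gT N tab w := rfl
      have e1 : tab 0 0 = gT N tab 0 := by
        simp [gT]
      have e2 : tab (v.1 : ZMod N) (v.2 : ZMod N) = gT N tab v := rfl
      rw [e0, e1, e2] at h4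
      rw [← h4]
      simp only [gT, mvR, Mat.apZ, Prod.fst_add, Prod.snd_add]
      push_cast
      congr 1 <;> ring

end Table

end Pool.H3JG
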